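import Mathlib

/-!
Arithmetic part: the squared distances can be taken rational multiples of a square root of a
rational number.
-/

namespace Pool.Agent.Work.MP_36d6be_co

open Filter Topology

lemma exists_rat_chain (P : ℚ → Prop) (D : ℕ → ℝ) (hD : ∀ n, 0 < D n)
    (h0 : Tendsto D atTop (𝓝 0))
    (h : ∀ m n, m < n → ∃ q : ℚ, q ≠ 0 ∧ P q ∧ D n * (4 * D m - D n) = 16 * (q : ℝ) ^ 2) :
    ∃ (c : ℚ) (r : ℕ → ℚ), 0 < c ∧ (∀ n, 0 < r n) ∧ StrictAnti r ∧
      Tendsto (fun n => (r n : ℝ)) atTop (𝓝 0) ∧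
      ∀ m n, m < n → ∃ q : ℚ, q ≠ 0 ∧ P q ∧ r n * (4 * r m - r n) = 16 * c * q ^ 2 := by
  have hinf : Tendsto (fun n => (D n)⁻¹) atTop atTop := by
    apply Filter.Tendsto.inv_tendsto_nhdsGT_zero
    rw [tendsto_nhdsWithin_iff]
    exact ⟨h0, Eventually.of_forall fun n => hD n⟩
  obtain ⟨φ, hφ, hmono⟩ := strictMono_subseq_of_tendsto_atTop hinf
  set E : ℕ → ℝ := fun n => D (φ n) with hE
  have hEpos : ∀ n, 0 < E n := fun n => hD _
  have hEanti : ∀ m n, m < n → E n < E m := by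
    intro m n hmn
    have := hmono hmn
    simp only [Function.comp] at this
    exact (inv_lt_inv₀ (hD _) (hD _)).1 this
  have hE0 : Tendsto E atTop (𝓝 0) := h0.comp hφ.tendsto_atTop
  have hEq : ∀ m n, m < n → ∃ q : ℚ, q ≠ 0 ∧ P q ∧ E n * (4 * E m - E n) = 16 * (q : ℝ) ^ 2 :=
    fun m n hmn => h (φ m) (φ n) (hφ hmn)
  choose! q hq0 hqP hq using hEq
  set δ : ℝ := E 0 - E 1 with hδ
  have hδpos : 0 < δ := by have := hEanti 0 1 (by norm_num); linarith
  -- `E k * δ` is rational for `k ≥ 2`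
  have hk : ∀ k, E (k + 2) * δ = ((4 * (q 0 (k + 2) ^ 2 - q 1 (k + 2) ^ 2) : ℚ) : ℝ) := by
    intro k
    have h1 := hq 0 (k + 2) (by omega)
    have h2 := hq 1 (k + 2) (by omega)
    push_cast
    rw [hδ]; linarith
  set r : ℕ → ℚ := fun k => 4 * (q 0 (k + 2) ^ 2 - q 1 (k + 2) ^ 2) with hr
  have hrE : ∀ k, (r k : ℝ) = E (k + 2) * δ := fun k => (hk k).symm
  have hrpos : ∀ k, 0 < r k := by
    intro k
    have : (0 : ℝ) < r k := by rw [hrE]; exact mul_pos (hEpos _) hδpos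
    exact_mod_cast this
  have hranti : StrictAnti r := by
    intro m n hmn
    have h1 : E (n + 2) < E (m + 2) := hEanti _ _ (by omega)
    have : (r n : ℝ) < r m := by
      rw [hrE, hrE]; exact mul_lt_mul_of_pos_right h1 hδpos
    exact_mod_cast this
  -- `δ ^ 2` is rational
  set κ : ℚ := 4 * (q 2 4 ^ 2 - q 3 4 ^ 2) with hκ
  have hκE : (κ : ℝ) = E 4 * (E 2 - E 3) := by
    have h1 := hq 2 4 (by omega)
    have h2 := hq 3 4 (by omega)
    rw [hκ]; push_cast; linarith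
  have hκpos : 0 < κ := by
    have h1 : E 3 < E 2 := hEanti 2 3 (by norm_num)
    have : (0 : ℝ) < κ := by
      rw [hκE]; exact mul_pos (hEpos _) (by linarith)
    exact_mod_cast this
  set c : ℚ := r 2 * (r 0 - r 1) / κ with hc
  have hcδ : (c : ℝ) = δ ^ 2 := by
    have hκ0 : (κ : ℝ) ≠ 0 := by exact_mod_cast hκpos.ne'
    rw [hc]; push_cast
    rw [div_eq_iff hκ0, hrE, hrE, hrE, hκE]; ring
  have hcpos : 0 < c := by
    have : (0 : ℝ) < c := by rw [hcδ]; positivity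
    exact_mod_cast this
  refine ⟨c, r, hcpos, hrpos, hranti, ?_, ?_⟩
  · have h1 : Tendsto (fun n => E (n + 2) * δ) atTop (𝓝 (0 * δ)) :=
      ((tendsto_add_atTop_iff_nat 2).2 hE0).mul_const δ
    rw [zero_mul] at h1
    simpa only [hrE] using h1
  · intro m n hmn
    refine ⟨q (m + 2) (n + 2), hq0 _ _ (by omega), hqP _ _ (by omega), ?_⟩
    have h1 := hq (m + 2) (n + 2) (by omega)
    have : (r n : ℝ) * (4 * r m - r n) = 16 * c * (q (m + 2) (n + 2) : ℝ) ^ 2 := by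
      rw [hrE, hrE, hcδ]
      linear_combination δ ^ 2 * h1
    exact_mod_cast this

end Pool.Agent.Work.MP_36d6be_co
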