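import Pool.Agent.Work.MP_36d6be_co.Geometry

/-!
Realisation of a binary-tree ultrametric inside `ℓ²`.
-/

namespace Pool.Agent.Work.MP_36d6be_co

open Filter Topology

/-- The code of the prefix of length `j + 1` of `x`. -/
def code (x : ℕ → Bool) (j : ℕ) : ℕ :=
  Encodable.encode (List.ofFn (fun i : Fin (j + 1) => x i))

lemma code_eq_iff (x y : ℕ → Bool) (j k : ℕ) :
    code x j = code y k ↔ j = k ∧ ∀ i ≤ j, x i = y i := by
  unfold code
  rw [Encodable.encode_inj]
  constructor
  · intro h
    have hlen := congrArg List.length h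
    simp only [List.length_ofFn] at hlen
    have hjk : j = k := by omega
    subst hjk
    refine ⟨rfl, fun i hi => ?_⟩
    have := List.ofFn_injective h
    exact congrFun this ⟨i, by omega⟩
  · rintro ⟨rfl, h⟩
    congr 1
    funext i
    exact h i (by omega)

lemma code_injective (x : ℕ → Bool) : Function.Injective (code x) := by
  intro j k h
  exact ((code_eq_iff x x j k).1 h).1

variable (D : ℕ → ℝ)

/-- Coefficient at level `j`. -/
noncomputable def coef (j : ℕ) : ℝ := Real.sqrt ((D j - D (j + 1)) / 2)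

/-- The coordinate function of the point attached to `x`. -/
noncomputable def pt (x : ℕ → Bool) : ℕ → ℝ := Function.extend (code x) (coef D) 0

lemma pt_code (x : ℕ → Bool) (j : ℕ) : pt D x (code x j) = coef D j :=
  (code_injective x).extend_apply _ _ _

lemma pt_code' (x y : ℕ → Bool) (j : ℕ) (h : ∃ i ≤ j, x i ≠ y i) : pt D y (code x j) = 0 := by
  unfold pt
  rw [Function.extend_apply']
  · rfl
  · rintro ⟨k, hk⟩
    obtain ⟨i, hi, hne⟩ := h
    obtain ⟨rfl, h2⟩ := (code_eq_iff y x k j).1 hk
    exact hne (h2 i hi).symm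

lemma pt_notMem (x : ℕ → Bool) (i : ℕ) (h : i ∉ Set.range (code x)) : pt D x i = 0 := by
  unfold pt
  rw [Function.extend_apply' _ _ _ (by simpa using h)]
  rfl

variable {D}

lemma coef_sq (hD : Antitone D) (j : ℕ) : coef D j ^ 2 = (D j - D (j + 1)) / 2 := by
  unfold coef
  rw [Real.sq_sqrt]
  have := hD (Nat.le_succ j)
  simp only [Nat.succ_eq_add_one] at this
  linarith

lemma hasSum_coef (hD : Antitone D) (h0 : Tendsto D atTop (𝓝 0)) :
    HasSum (fun j => coef D j ^ 2) (D 0 / 2) := by
  rw [hasSum_iff_tendsto_nat_of_nonneg (fun j => sq_nonneg _)]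
  have h1 : ∀ n, ∑ i ∈ Finset.range n, coef D i ^ 2 = (D 0 - D n) / 2 := by
    intro n
    simp only [coef_sq hD]
    rw [← Finset.sum_div, Finset.sum_range_sub']
  simp only [h1]
  have : Tendsto (fun n => (D 0 - D n) / 2) atTop (𝓝 ((D 0 - 0) / 2)) :=
    (tendsto_const_nhds.sub h0).div_const 2
  simpa using this

lemma hasSum_pt_mul (hD : Antitone D) (x y : ℕ → Bool) (hxy : x ≠ y) :
    HasSum (fun i => pt D x i * pt D y i) ((D 0 - D (PiNat.firstDiff x y)) / 2) := by
  rw [← (code_injective x).hasSum_iff]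
  · have h1 : ((fun i => pt D x i * pt D y i) ∘ code x)
        = fun j => if j < PiNat.firstDiff x y then coef D j ^ 2 else 0 := by
      funext j
      simp only [Function.comp]
      rw [pt_code]
      split_ifs with hj
      · have : code x j = code y j := by
          rw [code_eq_iff]
          exact ⟨rfl, fun i hi => PiNat.apply_eq_of_lt_firstDiff (by omega)⟩
        rw [this, pt_code]; ring
      · rw [pt_code' D x y j ⟨PiNat.firstDiff x y, by omega, PiNat.apply_firstDiff_ne hxy⟩, mul_zero]
    rw [h1]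
    have h2 : (D 0 - D (PiNat.firstDiff x y)) / 2
        = ∑ j ∈ Finset.range (PiNat.firstDiff x y),
          (if j < PiNat.firstDiff x y then coef D j ^ 2 else 0) := by
      rw [Finset.sum_congr rfl (g := fun j => (D j - D (j + 1)) / 2)]
      · rw [← Finset.sum_div, Finset.sum_range_sub']
      · intro j hj
        rw [if_pos (Finset.mem_range.1 hj), coef_sq hD]
    rw [h2]
    apply hasSum_sum_of_ne_finset_zero
    intro j hj
    rw [Finset.mem_range] at hj
    rw [if_neg hj]
  · intro i hi
    rw [pt_notMem D x i hi, zero_mul]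

lemma hasSum_pt_sq (hD : Antitone D) (h0 : Tendsto D atTop (𝓝 0)) (x : ℕ → Bool) :
    HasSum (fun i => pt D x i * pt D x i) (D 0 / 2) := by
  rw [← (code_injective x).hasSum_iff]
  · have h1 : ((fun i => pt D x i * pt D x i) ∘ code x) = fun j => coef D j ^ 2 := by
      funext j
      simp only [Function.comp]
      rw [pt_code]; ring
    rw [h1]
    exact hasSum_coef hD h0
  · intro i hi
    rw [pt_notMem D x i hi, zero_mul]

lemma memlp_pt (hD : Antitone D) (h0 : Tendsto D atTop (𝓝 0)) (x : ℕ → Bool) :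
    Memℓp (pt D x) 2 := by
  apply memℓp_gen
  have := (hasSum_pt_sq hD h0 x).summable
  simpa [Real.norm_eq_abs, sq_abs, sq] using this

/-- The point of `ℓ²` attached to `x`. -/
noncomputable def vec (hD : Antitone D) (h0 : Tendsto D atTop (𝓝 0)) (x : ℕ → Bool) :
    lp (fun _ : ℕ => ℝ) 2 := ⟨pt D x, memlp_pt hD h0 x⟩

lemma inner_vec (hD : Antitone D) (h0 : Tendsto D atTop (𝓝 0)) (x y : ℕ → Bool) (s : ℝ)
    (h : HasSum (fun i => pt D x i * pt D y i) s) :
    inner ℝ (vec hD h0 x) (vec hD h0 y) = s := by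
  have h1 := lp.hasSum_inner (𝕜 := ℝ) (vec hD h0 x) (vec hD h0 y)
  have h2 : (fun i => inner ℝ ((vec hD h0 x : ℕ → ℝ) i) ((vec hD h0 y : ℕ → ℝ) i))
      = fun i => pt D x i * pt D y i := by
    funext i
    have e1 : (vec hD h0 x : ℕ → ℝ) i = pt D x i := rfl
    have e2 : (vec hD h0 y : ℕ → ℝ) i = pt D y i := rfl
    rw [e1, e2]
    simp [mul_comm]
  have h3 : HasSum (fun i => pt D x i * pt D y i) (inner ℝ (vec hD h0 x) (vec hD h0 y)) := by
    rw [← h2]; exact h1
  exact h3.unique h

lemma norm_vec_sub (hD : Antitone D) (h0 : Tendsto D atTop (𝓝 0)) (x y : ℕ → Bool) (hxy : x ≠ y) :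
    ‖vec hD h0 x - vec hD h0 y‖ ^ 2 = D (PiNat.firstDiff x y) := by
  rw [norm_sub_sq_real, ← real_inner_self_eq_norm_sq, ← real_inner_self_eq_norm_sq,
    inner_vec hD h0 x x _ (hasSum_pt_sq hD h0 x), inner_vec hD h0 y y _ (hasSum_pt_sq hD h0 y),
    inner_vec hD h0 x y _ (hasSum_pt_mul hD x y hxy)]
  ring

lemma vec_injective (hD : Antitone D) (h0 : Tendsto D atTop (𝓝 0)) (hpos : ∀ n, 0 < D n) :
    Function.Injective (vec hD h0) := by
  intro x y h
  by_contra hne
  have h1 := norm_vec_sub hD h0 x y hne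
  rw [h, sub_self, norm_zero] at h1
  have := hpos (PiNat.firstDiff x y)
  rw [← h1] at this
  norm_num at this

/-- In the binary tree, all triangles are isosceles with the base determined by a deeper level. -/
lemma gram_vec (hD : Antitone D) (h0 : Tendsto D atTop (𝓝 0)) (x y z : ℕ → Bool)
    (hxy : x ≠ y) (hyz : y ≠ z) (hxz : x ≠ z) :
    ∃ m k, m < k ∧ gram (vec hD h0 x) (vec hD h0 y) (vec hD h0 z)
      = D k * (4 * D m - D k) / 4 := by
  have e1 := norm_vec_sub hD h0 y x hxy.symm
  have e2 := norm_vec_sub hD h0 z x hxz.symm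
  have e3 := norm_vec_sub hD h0 z y hyz.symm
  rw [PiNat.firstDiff_comm] at e1 e2 e3
  have m1 := PiNat.min_firstDiff_le x y z hxz
  have m2 := PiNat.min_firstDiff_le y x z hyz
  have m3 := PiNat.min_firstDiff_le x z y hxy
  rw [PiNat.firstDiff_comm y x] at m2
  rw [PiNat.firstDiff_comm z y] at m3
  rw [gram_eq, e1, e2, e3]
  rcases lt_trichotomy (PiNat.firstDiff x y) (PiNat.firstDiff y z) with h | h | h
  · have h3 : PiNat.firstDiff x z = PiNat.firstDiff x y := by omega
    refine ⟨_, _, h, ?_⟩
    rw [h3]; ring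
  · have h3 : PiNat.firstDiff x y < PiNat.firstDiff x z := by
      have hle : PiNat.firstDiff x y ≤ PiNat.firstDiff x z := by omega
      rcases hle.lt_or_eq with h4 | h4
      · exact h4
      · exfalso
        have a1 := PiNat.apply_firstDiff_ne hxy
        have a2 := PiNat.apply_firstDiff_ne hyz
        have a3 := PiNat.apply_firstDiff_ne hxz
        rw [← h] at a2
        rw [← h4] at a3
        revert a1 a2 a3
        cases x (PiNat.firstDiff x y) <;> cases y (PiNat.firstDiff x y) <;>
          cases z (PiNat.firstDiff x y) <;> simp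
    refine ⟨_, _, h3, ?_⟩
    rw [← h]; ring
  · have h3 : PiNat.firstDiff x z = PiNat.firstDiff y z := by omega
    refine ⟨_, _, h, ?_⟩
    rw [h3]; ring

end Pool.Agent.Work.MP_36d6be_co
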