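import Pool.Agent.Work.MP_36d6be_co.Residue

/-!
Choice of the prime in the local obstruction, and the conclusion `c ∈ {1, 3}` modulo squares.
-/

namespace Pool.Agent.Work.MP_36d6be_co

lemma isSquare_three (p : ℕ) [hp : Fact p.Prime] (h12 : p % 12 = 1) : IsSquare ((3 : ℤ) : ZMod p) := by
  have : Fact (Nat.Prime 3) := ⟨Nat.prime_three⟩
  have h4 : p % 4 = 1 := by omega
  have h3 : p % 3 = 1 := by omega
  have hne : ((3 : ℤ) : ZMod p) ≠ 0 := by
    intro h
    have h5 : ((3 : ℕ) : ZMod p) = 0 := by exact_mod_cast h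
    rw [ZMod.natCast_eq_zero_iff] at h5
    have h6 := (Nat.prime_dvd_prime_iff_eq hp.out Nat.prime_three).1 h5
    omega
  rw [← legendreSym.eq_one_iff p hne]
  have hrec := legendreSym.quadratic_reciprocity_one_mod_four (p := p) (q := 3) h4 (by norm_num)
  have h7 : legendreSym p ((3 : ℕ) : ℤ) = 1 := by
    rw [← hrec, legendreSym.mod]
    have : ((p : ℤ) % ((3 : ℕ) : ℤ)) = 1 := by omega
    rw [this]; exact legendreSym.at_one 3
  exact_mod_cast h7

lemma exists_prime_nonsquare (c0 : ℕ) (hsf : Squarefree c0) (h1 : c0 ≠ 1) (h3 : c0 ≠ 3) :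
    ∃ p : ℕ, p.Prime ∧ p % 12 = 1 ∧ ¬ IsSquare ((c0 : ℤ) : ZMod p) := by
  have hc0 : c0 ≠ 0 := hsf.ne_zero
  by_cases hex : ∃ l, l.Prime ∧ l ∣ c0 ∧ 5 ≤ l
  · obtain ⟨l, hl, hlc, hl5⟩ := hex
    have hlF : Fact l.Prime := ⟨hl⟩
    obtain ⟨c', rfl⟩ := hlc
    have hc' : c' ≠ 0 := by rintro rfl; simp at hc0
    have hcop : Nat.Coprime l c' := Nat.coprime_of_squarefree_mul hsf
    have hcop12 : Nat.Coprime l 12 := by
      rw [hl.coprime_iff_not_dvd]
      intro h
      have : l ≤ 12 := Nat.le_of_dvd (by norm_num) h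
      interval_cases l <;> simp_all (config := {decide := true})
    have hcopm : Nat.Coprime (12 * c') l := (Nat.Coprime.mul_right hcop12 hcop).symm
    obtain ⟨u, hu⟩ := FiniteField.exists_nonsquare (F := ZMod l) (by
      rw [ZMod.ringChar_zmod_n]; omega)
    have hu0 : u ≠ 0 := by rintro rfl; exact hu ⟨0, by simp⟩
    have hNZ : NeZero (12 * c' * l) := ⟨by have := hl.ne_zero; positivity⟩
    let e := ZMod.chineseRemainder hcopm
    have hunit : IsUnit (e.symm (1, u)) := by
      apply IsUnit.map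
      rw [Prod.isUnit_iff]
      exact ⟨isUnit_one, isUnit_iff_ne_zero.2 hu0⟩
    obtain ⟨p, hpgt, hp, hpe⟩ := Nat.forall_exists_prime_gt_and_eq_mod hunit l
    have hpF : Fact p.Prime := ⟨hp⟩
    have hmap : e ((p : ℕ) : ZMod (12 * c' * l)) = (1, u) := by rw [hpe]; simp
    rw [map_natCast] at hmap
    have hp1 : ((p : ℕ) : ZMod (12 * c')) = 1 := by
      have := congrArg Prod.fst hmap; simpa using this
    have hp2 : ((p : ℕ) : ZMod l) = u := by
      have := congrArg Prod.snd hmap; simpa using this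
    have hp12c : p ≡ 1 [MOD (12 * c')] := by
      rw [← ZMod.natCast_eq_natCast_iff]; simpa using hp1
    have hp12 : p % 12 = 1 := by
      have := hp12c.of_mul_right c'
      exact this
    have hp4 : p % 4 = 1 := by omega
    have hpodd : Odd p := Nat.odd_iff.2 (by omega)
    have hJc' : jacobiSym (c' : ℤ) p = 1 := by
      have h4c : p ≡ 1 [MOD (4 * c')] := by
        have : 12 * c' = 3 * (4 * c') := by ring
        rw [this] at hp12c
        exact hp12c.of_mul_left 3
      have hlt : 1 < 4 * c' := by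
        have : 0 < c' := Nat.pos_of_ne_zero hc'
        omega
      rw [jacobiSym.mod_right _ hpodd, Int.natAbs_natCast]
      have : p % (4 * c') = 1 := by
        have := h4c
        unfold Nat.ModEq at this
        rw [this, Nat.mod_eq_of_lt hlt]
      rw [this, jacobiSym.one_right]
    have hLl : legendreSym p ((l : ℕ) : ℤ) = -1 := by
      rw [← legendreSym.quadratic_reciprocity_one_mod_four (p := p) (q := l) hp4 (by omega)]
      rw [legendreSym.eq_neg_one_iff]
      rw [Int.cast_natCast, hp2]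
      exact hu
    refine ⟨p, hp, hp12, ?_⟩
    rw [← legendreSym.eq_neg_one_iff p, jacobiSym.legendreSym.to_jacobiSym]
    push_cast
    rw [jacobiSym.mul_left, hJc', mul_one, ← jacobiSym.legendreSym.to_jacobiSym]
    exact hLl
  · -- all prime factors are 2 or 3
    push Not at hex
    have hdvd : c0 ∣ 6 := by
      rw [← Nat.prod_primeFactors_of_squarefree hsf]
      have h6 : (6 : ℕ) = ∏ p ∈ ({2, 3} : Finset ℕ), p := by decide
      rw [h6]
      apply Finset.prod_dvd_prod_of_subset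
      intro l hl
      have hl' := Nat.mem_primeFactors.1 hl
      have h5 := hex l hl'.1 hl'.2.1
      have h2 := hl'.1.two_le
      have h4 : l ≠ 4 := by rintro rfl; exact absurd hl'.1 (by norm_num)
      simp only [Finset.mem_insert, Finset.mem_singleton]
      omega
    have hle : c0 ≤ 6 := Nat.le_of_dvd (by norm_num) hdvd
    refine ⟨13, by norm_num, by norm_num, ?_⟩
    interval_cases c0
    · exact absurd rfl hc0
    · exact absurd rfl h1
    · decide
    · exact absurd rfl h3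
    · exact absurd hdvd (by norm_num)
    · exact absurd hdvd (by norm_num)
    · decide

/-- Every positive rational is `c0 * s ^ 2` with `c0` a squarefree natural number, `s > 0`. -/
lemma exists_squarefree_part (c : ℚ) (hc : 0 < c) :
    ∃ (c0 : ℕ) (s : ℚ), Squarefree c0 ∧ 0 < s ∧ c = c0 * s ^ 2 := by
  obtain ⟨a, b, hab, hsf⟩ := Nat.sq_mul_squarefree (c.num.natAbs * c.den)
  have hnum : (0 : ℤ) < c.num := Rat.num_pos.2 hc
  have hden : 0 < c.den := c.den_pos
  have hcn : ((c.num.natAbs : ℕ) : ℚ) = c.num := by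
    have h := Int.natAbs_of_nonneg hnum.le
    calc ((c.num.natAbs : ℕ) : ℚ) = (((c.num.natAbs : ℕ) : ℤ) : ℚ) := (Int.cast_natCast _).symm
      _ = c.num := by rw [h]
  have hden0 : (c.den : ℚ) ≠ 0 := by exact_mod_cast hden.ne'
  have hb : b ≠ 0 := by
    rintro rfl
    have h0 : c.num.natAbs * c.den = 0 := by rw [← hab]; simp
    rcases Nat.mul_eq_zero.1 h0 with h | h
    · have := Int.natAbs_eq_zero.1 h; omega
    · omega
  refine ⟨a, b / c.den, hsf, by positivity, ?_⟩
  have h1 : (b : ℚ) ^ 2 * a = c.num * c.den := by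
    rw [← hcn]; exact_mod_cast congrArg (fun t : ℕ => (t : ℚ)) hab
  rw [div_pow]
  field_simp
  have h2 : c * c.den = c.num := Rat.mul_den_eq_num c
  calc c * (c.den : ℚ) ^ 2 = (c * c.den) * c.den := by ring
    _ = c.num * c.den := by rw [h2]
    _ = a * (b : ℚ) ^ 2 := by rw [← h1]; ring

/-- The constant of an infinite chain is `1` or `3` up to a square. -/
theorem chain_const (c : ℚ) (hc : 0 < c) (r : ℕ → ℚ) (hr : ∀ n, 0 < r n)
    (h : ∀ m n, m < n → ∃ s : ℚ, 4 * r m = (1 + c * s ^ 2) * r n) :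
    ∃ (c0 : ℚ) (s : ℚ), (c0 = 1 ∨ c0 = 3) ∧ 0 < s ∧ c = c0 * s ^ 2 := by
  obtain ⟨c0, s, hsf, hs, rfl⟩ := exists_squarefree_part c hc
  by_cases h1 : c0 = 1
  · exact ⟨c0, s, Or.inl (by exact_mod_cast h1), hs, rfl⟩
  by_cases h3 : c0 = 3
  · exact ⟨c0, s, Or.inr (by exact_mod_cast h3), hs, rfl⟩
  exfalso
  obtain ⟨p, hp, hp12, hns⟩ := exists_prime_nonsquare c0 hsf h1 h3
  have hpF : Fact p.Prime := ⟨hp⟩
  obtain ⟨b, hb⟩ : IsSquare (-1 : ZMod p) := ZMod.exists_sq_eq_neg_one_iff.2 (by omega)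
  obtain ⟨d, hd⟩ := isSquare_three p hp12
  have h3ne : ((3 : ℤ) : ZMod p) ≠ 0 := by
    intro h
    have h5 : ((3 : ℕ) : ZMod p) = 0 := by exact_mod_cast h
    rw [ZMod.natCast_eq_zero_iff] at h5
    have h6 := (Nat.prime_dvd_prime_iff_eq hp Nat.prime_three).1 h5
    omega
  refine chain_contra p (by omega) (c0 : ℤ) hns ?_ ?_ r hr ?_
  · rintro ⟨a, ha⟩
    apply hns
    refine ⟨a * b, ?_⟩
    push_cast at ha ⊢
    linear_combination (-1 : ZMod p) * ha + (a * a) * hb
  · rintro ⟨a, ha⟩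
    apply hns
    have hd0 : d ≠ 0 := by rintro rfl; apply h3ne; rw [hd]; simp
    refine ⟨a / d, ?_⟩
    push_cast at ha hd ⊢
    field_simp
    rw [sq, ← hd, mul_comm, ha]; ring
  · intro m n hmn
    obtain ⟨t, ht⟩ := h m n hmn
    refine ⟨s * t, ?_⟩
    rw [ht]; push_cast; ring

end Pool.Agent.Work.MP_36d6be_co
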