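import Pool.Agent.Work.MP_36d6be_co.Geometry

/-!
Selection of a sequence with constant forward distances from an uncountable set.
-/

namespace Pool.Agent.Work.MP_36d6be_co

open Filter Topology

section Metric

variable {X : Type*} [MetricSpace X] [SecondCountableTopology X]

lemma exists_ball_uncountable (T : Set X) (hT : ¬ T.Countable) (ε : ℝ) (hε : 0 < ε) :
    ∃ x : X, ¬ (T ∩ Metric.ball x ε).Countable := by
  have hne : T.Nonempty := by
    by_contra h
    rw [Set.not_nonempty_iff_eq_empty] at h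
    exact hT (h ▸ Set.countable_empty)
  have : Nonempty X := ⟨hne.some⟩
  by_contra hcon
  push Not at hcon
  apply hT
  have hcov : T ⊆ ⋃ n : ℕ, T ∩ Metric.ball (TopologicalSpace.denseSeq X n) ε := by
    intro x hx
    obtain ⟨y, hxy⟩ := (TopologicalSpace.denseRange_denseSeq X).exists_mem_open
      (Metric.isOpen_ball (x := x) (ε := ε)) ⟨x, Metric.mem_ball_self hε⟩
    exact Set.mem_iUnion.2 ⟨y, hx, by rw [Metric.mem_ball, dist_comm]; exact hxy⟩
  exact (Set.countable_iUnion fun n => hcon _).mono hcov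

/-- One step of the construction. -/
lemma exists_step (S : Set X) (hd : ∀ t ∈ S, ((fun p => dist p t) '' S).Countable)
    (T : Set X) (hTS : T ⊆ S) (hT : ¬ T.Countable) (ε : ℝ) (hε : 0 < ε) :
    ∃ y ∈ T, ∃ δ : ℝ, 0 < δ ∧ δ ≤ ε ∧ ∃ T' : Set X, T' ⊆ T ∧ ¬ T'.Countable ∧
      ∀ p ∈ T', dist p y = δ := by
  obtain ⟨x, hx⟩ := exists_ball_uncountable T hT (ε / 2) (by linarith)
  set T1 := T ∩ Metric.ball x (ε / 2) with hT1
  have hne : T1.Nonempty := by
    by_contra h
    rw [Set.not_nonempty_iff_eq_empty] at h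
    exact hx (h ▸ Set.countable_empty)
  obtain ⟨y, hy⟩ := hne
  have hC : ((fun p => dist p y) '' S).Countable := hd y (hTS hy.1)
  have hT2 : ¬ (T1 \ {y}).Countable := by
    intro h
    apply hx
    have : T1 ⊆ (T1 \ {y}) ∪ {y} := by
      intro z hz
      by_cases hzy : z = y
      · exact Or.inr hzy
      · exact Or.inl ⟨hz, hzy⟩
    exact (h.union (Set.countable_singleton y)).mono this
  have hex : ∃ δ ∈ ((fun p => dist p y) '' S), ¬ {p ∈ T1 \ {y} | dist p y = δ}.Countable := by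
    by_contra hcon
    push Not at hcon
    apply hT2
    have hcov : T1 \ {y} ⊆ ⋃ δ ∈ ((fun p => dist p y) '' S), {p ∈ T1 \ {y} | dist p y = δ} := by
      intro p hp
      refine Set.mem_biUnion (x := dist p y) ⟨p, hTS hp.1.1, rfl⟩ ⟨hp, rfl⟩
    exact (hC.biUnion hcon).mono hcov
  obtain ⟨δ, -, hδ⟩ := hex
  have hne2 : ({p ∈ T1 \ {y} | dist p y = δ}).Nonempty := by
    by_contra h
    rw [Set.not_nonempty_iff_eq_empty] at h
    exact hδ (h ▸ Set.countable_empty)
  obtain ⟨p, hp, hpδ⟩ := hne2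
  refine ⟨y, hy.1, δ, ?_, ?_, {p ∈ T1 \ {y} | dist p y = δ}, ?_, hδ, fun p hp => hp.2⟩
  · rw [← hpδ]; exact dist_pos.2 hp.2
  · rw [← hpδ]
    have h1 := hp.1.2
    have h2 := hy.2
    rw [Metric.mem_ball] at h1 h2
    have := dist_triangle_right p y x
    linarith
  · intro q hq; exact hq.1.1.1

/-- From an uncountable set `S` with countably many distances from each of its points, extract a
sequence `y` in `S` with `dist (y n) (y m) = δ m` for `m < n`, `δ → 0`. -/
lemma exists_seq (S : Set X) (hS : ¬ S.Countable)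
    (hd : ∀ t ∈ S, ((fun p => dist p t) '' S).Countable) :
    ∃ (y : ℕ → X) (δ : ℕ → ℝ), (∀ n, y n ∈ S) ∧ (∀ n, 0 < δ n) ∧ Tendsto δ atTop (𝓝 0) ∧
      ∀ m n, m < n → dist (y n) (y m) = δ m := by
  classical
  let St := {T : Set X // T ⊆ S ∧ ¬ T.Countable}
  have step : ∀ (n : ℕ) (T : St), ∃ (y : X) (δ : ℝ) (T' : St), y ∈ T.1 ∧ 0 < δ ∧
      δ ≤ 1 / ((n : ℝ) + 1) ∧ T'.1 ⊆ T.1 ∧ ∀ p ∈ T'.1, dist p y = δ := by
    intro n T
    obtain ⟨y, hy, δ, hδ, hδ2, T', hT', hT'c, hT'd⟩ :=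
      exists_step S hd T.1 T.2.1 T.2.2 (1 / ((n : ℝ) + 1)) (by positivity)
    exact ⟨y, δ, ⟨T', hT'.trans T.2.1, hT'c⟩, hy, hδ, hδ2, hT', hT'd⟩
  choose fy fδ fT hy hδ hδ2 hT hTd using step
  let T : ℕ → St := fun n => Nat.rec ⟨S, subset_rfl, hS⟩ (fun n T => fT n T) n
  have hTs : ∀ n, T (n + 1) = fT n (T n) := fun n => rfl
  have hanti : ∀ m n, m ≤ n → (T n).1 ⊆ (T m).1 := by
    intro m n hmn
    induction n, hmn using Nat.le_induction with
    | base => exact subset_rfl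
    | succ n hmn ih => rw [hTs]; exact (hT n (T n)).trans ih
  refine ⟨fun n => fy n (T n), fun n => fδ n (T n), fun n => (T n).2.1 (hy n (T n)),
    fun n => hδ n (T n), ?_, ?_⟩
  · refine squeeze_zero (fun n => (hδ n (T n)).le) (fun n => hδ2 n (T n)) ?_
    exact tendsto_one_div_add_atTop_nhds_zero_nat
  · intro m n hmn
    apply hTd m (T m)
    have := hanti (m + 1) n hmn (hy n (T n))
    rwa [hTs] at this

end Metric

section Inner

variable {V : Type*} [NormedAddCommGroup V] [InnerProductSpace ℝ V] [SecondCountableTopology V]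

/-- From an uncountable set in a separable inner product space in which every triangle has a
nonzero rational area satisfying `P`, extract a sequence of squared distances. -/
lemma exists_sq_dist (P : ℚ → Prop) (S : Set V) (hSc : ¬ S.Countable)
    (hS : ∀ a ∈ S, ∀ b ∈ S, ∀ c ∈ S, a ≠ b → b ≠ c → a ≠ c →
      ∃ q : ℚ, q ≠ 0 ∧ P q ∧ (1 / 2 : ℝ) * Real.sqrt (gram a b c) = q) :
    ∃ D : ℕ → ℝ, (∀ n, 0 < D n) ∧ Tendsto D atTop (𝓝 0) ∧
      ∀ m n, m < n → ∃ q : ℚ, q ≠ 0 ∧ P q ∧ D n * (4 * D m - D n) = 16 * (q : ℝ) ^ 2 := by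
  obtain ⟨y, δ, hyS, hδ, hδ0, hdist⟩ := exists_seq S hSc
    (countable_dist S (fun a ha b hb c hc h1 h2 h3 => by
      obtain ⟨q, h4, -, h5⟩ := hS a ha b hb c hc h1 h2 h3; exact ⟨q, h4, h5⟩))
  have hne : ∀ m n, m < n → y n ≠ y m := by
    intro m n hmn h
    have h1 := hdist m n hmn
    rw [h, dist_self] at h1
    exact (hδ m).ne h1
  refine ⟨fun n => δ n ^ 2, fun n => pow_pos (hδ n) 2, ?_, ?_⟩
  · have := hδ0.pow 2
    simpa using this
  · intro m n hmn
    have hmk : m < n + 1 := by omega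
    have hnk : n < n + 1 := by omega
    obtain ⟨q, hq, hP, h⟩ := hS (y m) (hyS m) (y n) (hyS n) (y (n + 1)) (hyS _)
      (hne m n hmn).symm (hne n (n + 1) hnk).symm (hne m (n + 1) hmk).symm
    refine ⟨q, hq, hP, ?_⟩
    have h4 : Real.sqrt (gram (y m) (y n) (y (n + 1))) = 2 * q := by linarith
    have h5 := Real.sq_sqrt (gram_nonneg (y m) (y n) (y (n + 1)))
    rw [h4, gram_eq] at h5
    rw [← dist_eq_norm, ← dist_eq_norm, ← dist_eq_norm, hdist m n hmn, hdist m (n + 1) hmk,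
      hdist n (n + 1) hnk] at h5
    simp only
    linarith

end Inner

end Pool.Agent.Work.MP_36d6be_co
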