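import Pool.Agent.Work.MP_36d6be_co.Defs
import Pool.Agent.Work.MP_36d6be_co.Selection
import Pool.Agent.Work.MP_36d6be_co.Chain
import Pool.Agent.Work.MP_36d6be_co.PrimeChoice
import Pool.Agent.Work.MP_36d6be_co.Embedding

/-!
The equivalence between rational-area sets of size continuum, uncountable rational-area sets and
infinite chains of rationals.
-/

namespace Pool.Agent.Work.MP_36d6be_co

open Filter Topology TopologicalSpace

lemma secondCountable_l2 : SecondCountableTopology L2 := by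
  let b : HilbertBasis ℕ ℝ L2 :=
    HilbertBasis.ofRepr (LinearIsometryEquiv.refl ℝ _)
  have h1 : IsSeparable (Set.range b) := (Set.countable_range b).isSeparable
  have h2 : IsSeparable ((Submodule.span ℝ (Set.range b)) : Set L2) :=
    h1.span
  have h3 := h2.closure
  have h4 : closure ((Submodule.span ℝ (Set.range b)) : Set L2) = Set.univ := by
    have := b.dense_span
    rw [← Submodule.topologicalClosure_coe, this]; rfl
  rw [h4] at h3
  have : SeparableSpace L2 := isSeparable_univ_iff.1 h3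
  exact UniformSpace.secondCountable_of_separable _

lemma area_eq_gram (a b c : L2) :
    area a b c = (1 / 2 : ℝ) * Real.sqrt (gram a b c) := rfl

/-- From an uncountable set in `ℓ²` all of whose triangles have nonzero rational area satisfying
`P`, extract a chain of rationals with constant `1` or `3`. -/
theorem exists_chain_of_uncountable (P : ℚ → Prop) (S : Set L2)
    (hSc : ¬ S.Countable)
    (hS : ∀ a ∈ S, ∀ b ∈ S, ∀ c ∈ S, a ≠ b → b ≠ c → a ≠ c →
      ∃ q : ℚ, q ≠ 0 ∧ P q ∧ area a b c = q) :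
    ∃ (c : ℚ) (r : ℕ → ℚ), (c = 1 ∨ c = 3) ∧ (∀ n, 0 < r n) ∧ StrictAnti r ∧
      Tendsto (fun n => (r n : ℝ)) atTop (𝓝 0) ∧
      ∀ m n, m < n → ∃ q : ℚ, q ≠ 0 ∧ P q ∧ r n * (4 * r m - r n) = 16 * c * q ^ 2 := by
  have := secondCountable_l2
  obtain ⟨D, hD, hD0, hDq⟩ := exists_sq_dist P S hSc hS
  obtain ⟨c, r, hc, hr, hanti, hr0, hrq⟩ := exists_rat_chain P D hD hD0 hDq
  have hchain : ∀ m n, m < n → ∃ s : ℚ, 4 * r m = (1 + c * s ^ 2) * r n := by
    intro m n hmn
    obtain ⟨q, hq, -, h⟩ := hrq m n hmn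
    refine ⟨4 * q / r n, ?_⟩
    have := (hr n).ne'
    field_simp
    linear_combination h
  obtain ⟨c0, s, hc0, hs, rfl⟩ := chain_const c hc r hr hchain
  refine ⟨c0, fun n => r n / s, hc0, fun n => div_pos (hr n) hs, ?_, ?_, ?_⟩
  · intro m n hmn
    exact div_lt_div_of_pos_right (hanti hmn) hs
  · have h1 : Tendsto (fun n => (r n : ℝ) / s) atTop (𝓝 (0 / s)) := hr0.div_const _
    rw [zero_div] at h1
    push_cast
    exact h1
  · intro m n hmn
    obtain ⟨q, hq, hP, h⟩ := hrq m n hmn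
    refine ⟨q, hq, hP, ?_⟩
    have hs0 := hs.ne'
    simp only
    field_simp
    linear_combination h

/-- Conversely a chain gives a rational-area set of size continuum. -/
theorem exists_set_of_chain (c : ℚ) (hc : 0 < c) (r : ℕ → ℚ) (hr : ∀ n, 0 < r n)
    (hr0 : Tendsto (fun n => (r n : ℝ)) atTop (𝓝 0))
    (h : ∀ m n, m < n → ∃ s : ℚ, s ≠ 0 ∧ 4 * r m = (1 + c * s ^ 2) * r n) :
    ∃ S : Set L2, Cardinal.mk S = Cardinal.continuum ∧
      IsRationalAreaSet S := by
  -- pass to a strictly decreasing subsequence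
  have hinf : Tendsto (fun n => (r n : ℝ)⁻¹) atTop atTop := by
    apply Filter.Tendsto.inv_tendsto_nhdsGT_zero
    rw [tendsto_nhdsWithin_iff]
    exact ⟨hr0, Eventually.of_forall fun n => by
      have := hr n
      exact (by exact_mod_cast this : (0 : ℝ) < r n)⟩
  obtain ⟨φ, hφ, hmono⟩ := strictMono_subseq_of_tendsto_atTop hinf
  have hcR : (0 : ℝ) < c := by exact_mod_cast hc
  have hrR : ∀ n, (0 : ℝ) < r n := fun n => by exact_mod_cast hr n
  set D : ℕ → ℝ := fun n => (r (φ n) : ℝ) / Real.sqrt c with hDdef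
  have hsq : 0 < Real.sqrt (c : ℝ) := Real.sqrt_pos.2 hcR
  have hDpos : ∀ n, 0 < D n := fun n => div_pos (hrR _) hsq
  have hDanti : Antitone D := by
    apply StrictAnti.antitone
    intro m n hmn
    have h1 := hmono hmn
    simp only [Function.comp] at h1
    have h2 := (inv_lt_inv₀ (hrR _) (hrR _)).1 h1
    exact div_lt_div_of_pos_right h2 hsq
  have hD0 : Tendsto D atTop (𝓝 0) := by
    have h1 : Tendsto (fun n => (r (φ n) : ℝ) / Real.sqrt c) atTop (𝓝 (0 / Real.sqrt c)) :=
      (hr0.comp hφ.tendsto_atTop).div_const _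
    rwa [zero_div] at h1
  have hinj := vec_injective hDanti hD0 hDpos
  refine ⟨Set.range (vec hDanti hD0), ?_, ?_⟩
  · rw [Cardinal.mk_range_eq _ hinj]
    simp
  · rintro _ ⟨x, rfl⟩ _ ⟨y, rfl⟩ _ ⟨z, rfl⟩ hxy hyz hxz
    have hxy' : x ≠ y := fun e => hxy (by rw [e])
    have hyz' : y ≠ z := fun e => hyz (by rw [e])
    have hxz' : x ≠ z := fun e => hxz (by rw [e])
    obtain ⟨m, k, hmk, hg⟩ := gram_vec hDanti hD0 x y z hxy' hyz' hxz'
    obtain ⟨s, hs, hsr⟩ := h (φ m) (φ k) (hφ hmk)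
    have hrk := hr (φ k)
    refine ⟨|r (φ k) * s| / 4, by positivity, ?_⟩
    rw [area_eq_gram, hg]
    have h1 : D k * (4 * D m - D k) / 4 = (((r (φ k) * s : ℚ) : ℝ) / 2) ^ 2 := by
      have hsrR : (4 : ℝ) * r (φ m) = (1 + c * (s : ℝ) ^ 2) * r (φ k) := by exact_mod_cast hsr
      have hcc : Real.sqrt (c : ℝ) ^ 2 = c := Real.sq_sqrt hcR.le
      have e1 : D k * (4 * D m - D k) = (r (φ k) : ℝ) * (4 * r (φ m) - r (φ k)) / c := by
        simp only [hDdef]
        rw [div_mul_eq_mul_div, div_eq_div_iff hsq.ne' hcR.ne']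
        have e2 : (4 : ℝ) * (r (φ m) / Real.sqrt c) - r (φ k) / Real.sqrt c
            = (4 * r (φ m) - r (φ k)) / Real.sqrt c := by ring
        rw [e2, mul_div_assoc', div_mul_eq_mul_div, div_eq_iff hsq.ne']
        linear_combination (-(r (φ k) : ℝ) * (4 * r (φ m) - r (φ k))) * hcc
      rw [e1, hsrR]
      push_cast
      field_simp
      ring
    rw [h1, Real.sqrt_sq_eq_abs, abs_div]
    push_cast
    rw [abs_of_pos (by norm_num : (0 : ℝ) < 2)]
    ring

theorem chain_of_uncountable (S : Set L2) (hSc : ¬ S.Countable)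
    (hS : IsRationalAreaSet S) : HasInfiniteChain := by
  obtain ⟨c, r, hc, hr, -, hr0, hq⟩ := exists_chain_of_uncountable (fun _ => True) S hSc
    (fun a ha b hb c hc h1 h2 h3 => by
      obtain ⟨q, h4, h5⟩ := hS a ha b hb c hc h1 h2 h3; exact ⟨q, h4, trivial, h5⟩)
  refine ⟨c, hc, r, hr, hr0, fun m n hmn => ?_⟩
  obtain ⟨q, hq0, -, h⟩ := hq m n hmn
  have hrn := (hr n).ne'
  refine ⟨4 * q / r n, by positivity, ?_⟩
  field_simp
  linear_combination h

theorem main_equiv :
    ((∃ S : Set L2, Cardinal.mk S = Cardinal.continuum ∧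
        IsRationalAreaSet S) ↔ HasInfiniteChain) ∧
    ((∃ S : Set L2, ¬ S.Countable ∧ IsRationalAreaSet S) ↔
        HasInfiniteChain) := by
  have h1 : (∃ S : Set L2, Cardinal.mk S = Cardinal.continuum ∧
      IsRationalAreaSet S) → ∃ S : Set L2, ¬ S.Countable ∧
      IsRationalAreaSet S := by
    rintro ⟨S, hS, hr⟩
    refine ⟨S, ?_, hr⟩
    rw [← Cardinal.le_aleph0_iff_set_countable, hS, not_le]
    exact Cardinal.aleph0_lt_continuum
  have h2 : (∃ S : Set L2, ¬ S.Countable ∧ IsRationalAreaSet S) →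
      HasInfiniteChain := fun ⟨S, hS, hr⟩ => chain_of_uncountable S hS hr
  have h3 : HasInfiniteChain → ∃ S : Set L2,
      Cardinal.mk S = Cardinal.continuum ∧ IsRationalAreaSet S := by
    rintro ⟨c, hc, r, hr, hr0, h⟩
    refine exists_set_of_chain c ?_ r hr hr0 h
    rcases hc with rfl | rfl <;> norm_num
  exact ⟨⟨fun h => h2 (h1 h), h3⟩, ⟨h2, fun h => h1 (h3 h)⟩⟩

end Pool.Agent.Work.MP_36d6be_co
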