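import Mathlib

/-!
Definitions for problem MP_36d6be_co: areas of triangles in real `ℓ²` and rational-area sets.
-/

namespace Pool.Agent.Work.MP_36d6be_co

/-- The real Hilbert space `ℓ²` of square-summable real sequences. -/
abbrev L2 : Type := lp (fun _ : ℕ => ℝ) 2

section

variable {V : Type*} [NormedAddCommGroup V] [InnerProductSpace ℝ V]

/-- The Euclidean area of the triangle `abc` in a real inner product space:
half the square root of the Gram determinant of `b - a`, `c - a`. -/
noncomputable def area (a b c : V) : ℝ :=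
  (1 / 2 : ℝ) * Real.sqrt (‖b - a‖ ^ 2 * ‖c - a‖ ^ 2 - (inner ℝ (b - a) (c - a)) ^ 2)

/-- `S` is a rational-area set: every three distinct points of `S` span a triangle whose area is
a nonzero rational number. -/
def IsRationalAreaSet (S : Set V) : Prop :=
  ∀ a ∈ S, ∀ b ∈ S, ∀ c ∈ S, a ≠ b → b ≠ c → a ≠ c →
    ∃ q : ℚ, q ≠ 0 ∧ area a b c = (q : ℝ)

end

/-- There is an infinite chain: `c ∈ {1, 3}` and positive rationals `r 0, r 1, …` tending to `0`
such that `4 r m / r n` is of the form `1 + c s ^ 2` with `s` a nonzero rational, for all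
`m < n`. -/
def HasInfiniteChain : Prop :=
  ∃ c : ℚ, (c = 1 ∨ c = 3) ∧ ∃ r : ℕ → ℚ, (∀ n, 0 < r n) ∧
    Filter.Tendsto (fun n => (r n : ℝ)) Filter.atTop (nhds 0) ∧
    ∀ m n, m < n → ∃ s : ℚ, s ≠ 0 ∧ 4 * r m = (1 + c * s ^ 2) * r n

end Pool.Agent.Work.MP_36d6be_co
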