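import Mathlib

/-!
Geometric part: from an uncountable rational-area set to a sequence of squared distances.
-/

namespace Pool.Agent.Work.MP_36d6be_co

open Filter Topology Polynomial

/-- The algebraic core of the fact that three areas determine finitely many distances. -/
lemma finite_nu (E F Φ K1 K2 K3 : ℝ) (hE : E ≠ 0) (hdet : E * F - Φ ^ 2 ≠ 0) :
    {ν : ℝ | ∃ α β : ℝ, E * ν - α ^ 2 = K1 ∧ F * ν - β ^ 2 = K3 ∧
      (E + F - 2 * Φ) * (ν - 2 * α + E) - (β - α - Φ + E) ^ 2 = K2}.Finite := by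
  classical
  set C1 : ℝ := E * K3 - F * K1 with hC1
  set C3 : ℝ := (K2 - K1 - K3 - (E * F - Φ ^ 2)) / 2 with hC3
  let Q : ℝ[X] := C E * (C F * X ^ 2 - C C1) * (X - C (E - Φ)) ^ 2
    - (C Φ * X ^ 2 + C (E * (F - Φ)) * X + C (E * C3 + Φ * K1)) ^ 2
  have hQ : Q ≠ 0 := by
    intro h
    have e0 := congrArg (eval 0) h
    have e1 := congrArg (eval 1) h
    have e2 := congrArg (eval 2) h
    have e3 := congrArg (eval (-1)) h
    have e4 := congrArg (eval (-2)) h
    simp only [Q, eval_sub, eval_mul, eval_pow, eval_add, eval_C, eval_X, eval_zero] at e0 e1 e2 e3 e4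
    apply hdet
    linear_combination (1/24) * (e2 - 4 * e1 + 6 * e0 - 4 * e3 + e4)
  have hfin : (Q.roots.toFinset : Set ℝ).Finite := Finset.finite_toSet _
  refine (hfin.image (fun α => (K1 + α ^ 2) / E)).subset ?_
  rintro ν ⟨α, β, h1, h2, h3⟩
  refine ⟨α, ?_, ?_⟩
  · simp only [Finset.mem_coe, Multiset.mem_toFinset, mem_roots hQ, IsRoot.def]
    simp only [Q, eval_sub, eval_mul, eval_pow, eval_add, eval_C, eval_X]
    have hb : F * α ^ 2 - C1 = E * β ^ 2 := by
      rw [hC1]; linear_combination (-F) * h1 + E * h2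
    have hr : Φ * α ^ 2 + E * (F - Φ) * α + (E * C3 + Φ * K1) = E * β * (α - (E - Φ)) := by
      rw [hC3]
      linear_combination (E / 2 - Φ) * h1 + (E / 2) * h2 - (E / 2) * h3
    rw [hb, hr]; ring
  · have : K1 + α ^ 2 = E * ν := by linarith
    simp only [this]
    field_simp


section Inner

variable {V : Type*} [NormedAddCommGroup V] [InnerProductSpace ℝ V]

/-- Gram determinant of `b - a`, `c - a`. -/
noncomputable def gram (a b c : V) : ℝ :=
  ‖b - a‖ ^ 2 * ‖c - a‖ ^ 2 - (inner ℝ (b - a) (c - a)) ^ 2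

lemma gram_nonneg (a b c : V) : 0 ≤ gram a b c := by
  unfold gram
  have h := abs_real_inner_le_norm (b - a) (c - a)
  have h2 : (inner ℝ (b - a) (c - a)) ^ 2 ≤ (‖b - a‖ * ‖c - a‖) ^ 2 := by
    rw [← sq_abs (inner ℝ (b - a) (c - a))]
    exact pow_le_pow_left₀ (abs_nonneg _) h 2
  nlinarith [h2]

/-- The Gram determinant in terms of the three squared distances. -/
lemma gram_eq (a b c : V) :
    gram a b c = (2 * ‖b - a‖ ^ 2 * ‖c - a‖ ^ 2 + 2 * ‖c - a‖ ^ 2 * ‖c - b‖ ^ 2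
      + 2 * ‖c - b‖ ^ 2 * ‖b - a‖ ^ 2 - (‖b - a‖ ^ 2) ^ 2 - (‖c - a‖ ^ 2) ^ 2
      - (‖c - b‖ ^ 2) ^ 2) / 4 := by
  unfold gram
  have h : ‖c - b‖ ^ 2 = ‖c - a‖ ^ 2 - 2 * inner ℝ (c - a) (b - a) + ‖b - a‖ ^ 2 := by
    rw [← norm_sub_sq_real]; congr 2; abel
  rw [real_inner_comm] at h
  have h' : inner ℝ (b - a) (c - a) = (‖c - a‖ ^ 2 + ‖b - a‖ ^ 2 - ‖c - b‖ ^ 2) / 2 := by
    linarith
  rw [h']; ring

/-- Given three non-collinear points, the three areas with a fourth point `p` leave only finitely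
many possibilities for the distance to the first of them. -/
lemma finite_dist_sq (t u v : V) (h : gram t u v ≠ 0) (K1 K2 K3 : ℝ) :
    {ν : ℝ | ∃ p : V, gram t u p = K1 ∧ gram t v p = K3 ∧ gram u v p = K2 ∧
      ν = ‖p - t‖ ^ 2}.Finite := by
  set E : ℝ := ‖u - t‖ ^ 2 with hE
  set F : ℝ := ‖v - t‖ ^ 2 with hF
  set Φ : ℝ := inner ℝ (u - t) (v - t) with hΦ
  have hdet : E * F - Φ ^ 2 ≠ 0 := h
  have hE0 : E ≠ 0 := by
    intro h0
    have hz : u - t = 0 := by
      have : ‖u - t‖ = 0 := by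
        have := h0; rw [hE] at this; exact pow_eq_zero_iff (two_ne_zero) |>.1 this
      exact norm_eq_zero.1 this
    apply hdet
    rw [h0, hΦ, hz]; simp
  refine (finite_nu E F Φ K1 K2 K3 hE0 hdet).subset ?_
  rintro ν ⟨p, h1, h2, h3, rfl⟩
  refine ⟨inner ℝ (u - t) (p - t), inner ℝ (v - t) (p - t), h1, h2, ?_⟩
  rw [← h3]
  unfold gram
  have e1 : ‖v - u‖ ^ 2 = E + F - 2 * Φ := by
    have : v - u = (v - t) - (u - t) := by abel
    rw [this, norm_sub_sq_real, real_inner_comm]; ring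
  have e2 : ‖p - u‖ ^ 2 = ‖p - t‖ ^ 2 - 2 * inner ℝ (u - t) (p - t) + E := by
    have : p - u = (p - t) - (u - t) := by abel
    rw [this, norm_sub_sq_real, real_inner_comm]
  have e3 : inner ℝ (v - u) (p - u) = inner ℝ (v - t) (p - t) - inner ℝ (u - t) (p - t) - Φ + E := by
    have h4 : v - u = (v - t) - (u - t) := by abel
    have h5 : p - u = (p - t) - (u - t) := by abel
    rw [h4, h5, inner_sub_left, inner_sub_right (v - t) (p - t), inner_sub_right (u - t) (p - t),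
      real_inner_self_eq_norm_sq, real_inner_comm (u - t) (v - t)]
    ring
  rw [e1, e2, e3]

/-- If all areas of triangles in `S` are nonzero rationals, the squared distances to a fixed point
of `S` take only countably many values. -/
lemma countable_dist (S : Set V)
    (hS : ∀ a ∈ S, ∀ b ∈ S, ∀ c ∈ S, a ≠ b → b ≠ c → a ≠ c →
      ∃ q : ℚ, q ≠ 0 ∧ (1 / 2 : ℝ) * Real.sqrt (gram a b c) = q)
    (t : V) (ht : t ∈ S) : ((fun p => dist p t) '' S).Countable := by
  classical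
  by_cases hcard : ∃ u ∈ S, ∃ v ∈ S, t ≠ u ∧ t ≠ v ∧ u ≠ v
  swap
  · -- `S` has at most two points
    have hSc : S.Countable := by
      by_cases h1 : ∃ u ∈ S, t ≠ u
      · obtain ⟨u, hu, htu⟩ := h1
        have : S ⊆ {t, u} := by
          intro x hx
          by_contra hne
          simp only [Set.mem_insert_iff, Set.mem_singleton_iff, not_or] at hne
          exact hcard ⟨u, hu, x, hx, htu, fun h => hne.1 h.symm, fun h => hne.2 h.symm⟩
        exact (Set.toFinite ({t, u} : Set V)).countable.mono this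
      · push Not at h1
        have : S ⊆ {t} := fun x hx => (h1 x hx).symm
        exact (Set.countable_singleton t).mono this
    exact hSc.image _
  obtain ⟨u, hu, v, hv, htu, htv, huv⟩ := hcard
  have key : ∀ a ∈ S, ∀ b ∈ S, ∀ c ∈ S, a ≠ b → b ≠ c → a ≠ c →
      ∃ q : ℚ, q ≠ 0 ∧ gram a b c = 4 * (q : ℝ) ^ 2 := by
    intro a ha b hb c hc h1 h2 h3
    obtain ⟨q, hq, h⟩ := hS a ha b hb c hc h1 h2 h3
    refine ⟨q, hq, ?_⟩
    have h4 : Real.sqrt (gram a b c) = 2 * q := by linarith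
    have h5 := Real.sq_sqrt (gram_nonneg a b c)
    rw [h4] at h5
    rw [← h5]; ring
  have hne : gram t u v ≠ 0 := by
    obtain ⟨q, hq, h⟩ := key t ht u hu v hv htu huv htv
    rw [h]; positivity
  let A : ℚ × ℚ × ℚ → Set ℝ := fun K =>
    {ν : ℝ | ∃ p : V, gram t u p = 4 * (K.1 : ℝ) ^ 2 ∧ gram t v p = 4 * (K.2.2 : ℝ) ^ 2 ∧
      gram u v p = 4 * (K.2.1 : ℝ) ^ 2 ∧ ν = ‖p - t‖ ^ 2}
  have hA : ∀ K, (A K).Countable := fun K =>
    (finite_dist_sq t u v hne _ _ _).countable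
  have hU : (⋃ K, A K).Countable := Set.countable_iUnion hA
  have hsub : (fun p => dist p t) '' (S \ {t, u, v}) ⊆ Real.sqrt '' (⋃ K, A K) := by
    rintro _ ⟨p, ⟨hp, hpn⟩, rfl⟩
    simp only [Set.mem_insert_iff, Set.mem_singleton_iff, not_or] at hpn
    obtain ⟨q1, -, h1⟩ := key t ht u hu p hp htu (Ne.symm hpn.2.1) (Ne.symm hpn.1)
    obtain ⟨q3, -, h3⟩ := key t ht v hv p hp htv (Ne.symm hpn.2.2) (Ne.symm hpn.1)
    obtain ⟨q2, -, h2⟩ := key u hu v hv p hp huv (Ne.symm hpn.2.2) (Ne.symm hpn.2.1)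
    refine ⟨‖p - t‖ ^ 2, Set.mem_iUnion.2 ⟨(q1, q2, q3), p, h1, h3, h2, rfl⟩, ?_⟩
    rw [Real.sqrt_sq (norm_nonneg _)]
    exact (dist_eq_norm p t).symm
  have hsplit : S ⊆ (S \ {t, u, v}) ∪ {t, u, v} := by
    intro x hx
    by_cases h : x ∈ ({t, u, v} : Set V)
    · exact Or.inr h
    · exact Or.inl ⟨hx, h⟩
  refine Set.Countable.mono (Set.image_mono hsplit) ?_
  rw [Set.image_union]
  exact ((hU.image _).mono hsub).union ((Set.toFinite ({t, u, v} : Set V)).countable.image _)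

end Inner

end Pool.Agent.Work.MP_36d6be_co
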