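import Pool.Agent.Work.MP_36d6be_co.PrimeChoice

/-!
Auxiliary arithmetic for the denominators of the areas.
-/

namespace Pool.Agent.Work.MP_36d6be_co

open Filter Topology

lemma two_not_isSquare : ¬ IsSquare ((2 : ℤ) : ZMod 3) := by decide

lemma not_isSquare_neg (p : ℕ) [hp : Fact p.Prime] (h12 : p % 12 = 11) (c0 : ℕ)
    (hc0 : c0 = 1 ∨ c0 = 3) : ¬ IsSquare ((-(c0 : ℤ) : ℤ) : ZMod p) := by
  have hm1 : ¬ IsSquare (-1 : ZMod p) := by
    rw [ZMod.exists_sq_eq_neg_one_iff]; omega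
  rcases hc0 with rfl | rfl
  · simpa using hm1
  · have : Fact (Nat.Prime 3) := ⟨Nat.prime_three⟩
    have hne : ((3 : ℤ) : ZMod p) ≠ 0 := by
      intro h
      have h5 : ((3 : ℕ) : ZMod p) = 0 := by exact_mod_cast h
      rw [ZMod.natCast_eq_zero_iff] at h5
      have h6 := (Nat.prime_dvd_prime_iff_eq hp.out Nat.prime_three).1 h5
      omega
    have hrec := legendreSym.quadratic_reciprocity_three_mod_four (p := p) (q := 3)
      (by omega) (by norm_num)
    have h2 : legendreSym 3 ((p : ℕ) : ℤ) = -1 := by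
      rw [legendreSym.mod]
      have : ((p : ℤ) % ((3 : ℕ) : ℤ)) = 2 := by omega
      rw [this, legendreSym.eq_neg_one_iff]
      exact two_not_isSquare
    have h3 : legendreSym p ((3 : ℕ) : ℤ) = 1 := by linarith
    have hsq3 : IsSquare ((3 : ℤ) : ZMod p) := by
      rw [← legendreSym.eq_one_iff p hne]; exact_mod_cast h3
    rintro ⟨u, hu⟩
    obtain ⟨d, hd⟩ := hsq3
    have hd0 : d ≠ 0 := by rintro rfl; apply hne; rw [hd]; simp
    apply hm1
    refine ⟨u / d, ?_⟩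
    push_cast at hu hd
    field_simp
    linear_combination hu - (-1 : ZMod p) * hd

lemma int_pow_mul {p : ℕ} (hp : p.Prime) (x : ℤ) (hx : x ≠ 0) :
    ∃ (i : ℕ) (x' : ℤ), x = (p : ℤ) ^ i * x' ∧ ¬ (p : ℤ) ∣ x' := by
  have hfin : FiniteMultiplicity (p : ℤ) x := by
    rw [Int.finiteMultiplicity_iff]
    exact ⟨by simpa using hp.one_lt.ne', hx⟩
  obtain ⟨c, hc, hnd⟩ := hfin.exists_eq_pow_mul_and_not_dvd
  exact ⟨_, c, hc, hnd⟩

lemma prime_pow_alt {p : ℕ} (hp : p.Prime) (K v : ℕ) (hK : K ≠ 0) (hv : K.factorization p < v)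
    (x y a e : ℤ) (hxy : (p : ℤ) ^ v ∣ x * y) (ha : ¬ (p : ℤ) ∣ a) (he : (p : ℤ) ^ v ∣ e)
    (hsum : (x + y) ^ 2 = e - K * a) : (p : ℤ) ^ v ∣ K * x ∨ (p : ℤ) ^ v ∣ K * y := by
  have hpZ : Prime (p : ℤ) := Nat.prime_iff_prime_int.1 hp
  by_cases hx : x = 0
  · left; rw [hx, mul_zero]; exact dvd_zero _
  by_cases hy : y = 0
  · right; rw [hy, mul_zero]; exact dvd_zero _
  obtain ⟨i, x', hxi, hx'⟩ := int_pow_mul hp x hx
  obtain ⟨j, y', hyj, hy'⟩ := int_pow_mul hp y hy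
  set κ := K.factorization p with hκ
  have hKd : (p : ℤ) ^ κ ∣ K := by exact_mod_cast Nat.ordProj_dvd K p
  have hKnd : ¬ (p : ℤ) ^ (κ + 1) ∣ K := by
    intro h
    have : p ^ (κ + 1) ∣ K := by exact_mod_cast h
    exact Nat.pow_succ_factorization_not_dvd hK hp this
  have hij : v ≤ i + j := by
    by_contra hcon
    push Not at hcon
    have h1 : (p : ℤ) ^ (i + j + 1) ∣ (p : ℤ) ^ (i + j) * (x' * y') := by
      have h2 : (p : ℤ) ^ (i + j + 1) ∣ x * y := (pow_dvd_pow _ (by omega)).trans hxy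
      rw [hxi, hyj] at h2
      convert h2 using 1
      ring
    rw [pow_succ] at h1
    have h3 := (mul_dvd_mul_iff_left (pow_ne_zero _ hpZ.ne_zero)).1 h1
    rcases hpZ.dvd_or_dvd h3 with h4 | h4
    · exact hx' h4
    · exact hy' h4
  -- the smaller exponent is at most `κ`
  have hmin : ∀ l, l ≤ i → l ≤ j → l ≤ κ := by
    intro l hli hlj
    by_contra hcon
    push Not at hcon
    have h1 : (p : ℤ) ^ l ∣ x + y := by
      apply dvd_add
      · rw [hxi]; exact (pow_dvd_pow _ hli).mul_right _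
      · rw [hyj]; exact (pow_dvd_pow _ hlj).mul_right _
    have h2 : (p : ℤ) ^ (κ + 1) ∣ (x + y) ^ 2 := by
      have h3 : (p : ℤ) ^ (κ + 1) ∣ x + y := (pow_dvd_pow _ (by omega)).trans h1
      exact h3.trans (dvd_pow_self _ (by norm_num))
    rw [hsum] at h2
    have h4 : (p : ℤ) ^ (κ + 1) ∣ e := (pow_dvd_pow _ (by omega)).trans he
    have h5 : (p : ℤ) ^ (κ + 1) ∣ K * a := by
      have := dvd_sub h4 h2
      simpa using this
    have hcop : IsCoprime ((p : ℤ) ^ (κ + 1)) a := by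
      apply IsCoprime.pow_left
      exact (Prime.coprime_iff_not_dvd hpZ).2 ha
    exact hKnd (hcop.dvd_of_dvd_mul_right h5)
  rcases le_total i j with h | h
  · right
    have h1 := hmin i le_rfl h
    rw [hyj]
    obtain ⟨K', hK'⟩ := hKd
    rw [hK']
    have : (p : ℤ) ^ κ * K' * ((p : ℤ) ^ j * y') = (p : ℤ) ^ (κ + j) * (K' * y') := by ring
    rw [this]
    exact (pow_dvd_pow _ (by omega)).mul_right _
  · left
    have h1 := hmin j h le_rfl
    rw [hxi]
    obtain ⟨K', hK'⟩ := hKd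
    rw [hK']
    have : (p : ℤ) ^ κ * K' * ((p : ℤ) ^ i * x') = (p : ℤ) ^ (κ + i) * (K' * x') := by ring
    rw [this]
    exact (pow_dvd_pow _ (by omega)).mul_right _

end Pool.Agent.Work.MP_36d6be_co
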