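import Mathlib

/-!
Local obstruction: the constant `c` of an infinite chain is `1` or `3` modulo squares.
-/

namespace Pool.Agent.Work.MP_36d6be_co

section Local

variable (p : ℕ) [hp : Fact p.Prime]

lemma isSquare_of_near (n : ℤ) (z : ℚ) (h : ‖((z : ℚ_[p]) ^ 2 - (n : ℚ_[p]))‖ < 1) :
    IsSquare ((n : ℤ) : ZMod p) := by
  have hn : ‖((n : ℤ) : ℚ_[p])‖ ≤ 1 := Padic.norm_int_le_one n
  have hz2 : ‖(z : ℚ_[p]) ^ 2‖ ≤ 1 := by
    have : (z : ℚ_[p]) ^ 2 = ((z : ℚ_[p]) ^ 2 - (n : ℚ_[p])) + (n : ℚ_[p]) := by ring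
    rw [this]
    exact (Padic.nonarchimedean _ _).trans (max_le h.le hn)
  have hz : ‖(z : ℚ_[p])‖ ≤ 1 := by
    rw [norm_pow] at hz2
    by_contra hcon
    push Not at hcon
    have : 1 < ‖(z : ℚ_[p])‖ ^ 2 := one_lt_pow₀ hcon (by norm_num)
    linarith
  set z' : ℤ_[p] := ⟨(z : ℚ_[p]), hz⟩ with hz'
  have hmem : z' ^ 2 - (n : ℤ_[p]) ∈ RingHom.ker (PadicInt.toZMod : ℤ_[p] →+* ZMod p) := by
    rw [PadicInt.ker_toZMod, IsLocalRing.mem_maximalIdeal, PadicInt.mem_nonunits]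
    rw [PadicInt.norm_def]
    push_cast
    exact h
  rw [RingHom.mem_ker, map_sub, map_pow, map_intCast, sub_eq_zero] at hmem
  exact ⟨PadicInt.toZMod z', by rw [← hmem]; ring⟩

lemma norm_lt_of_four (hp2 : p ≠ 2) : ‖(4 : ℚ_[p])‖ = 1 := by
  have h : ‖((4 : ℕ) : ℚ_[p])‖ = 1 := by
    rw [Padic.norm_natCast_eq_one_iff]
    have : (4 : ℕ) = 2 ^ 2 := by norm_num
    rw [this]
    exact Nat.Coprime.pow_right 2 ((Nat.coprime_primes hp.out Nat.prime_two).2 hp2)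
  exact_mod_cast h

/-- (F1) the ratio `x` of two terms cannot be `p`-adically small. -/
lemma local_one_le (c0 : ℤ) (hm : ¬ IsSquare ((-c0 : ℤ) : ZMod p)) (x s : ℚ)
    (h : 4 * x - 1 = c0 * s ^ 2) : 1 ≤ ‖(x : ℚ_[p])‖ := by
  by_contra hcon
  push Not at hcon
  apply hm
  apply isSquare_of_near p (-c0) (c0 * s)
  have h1 : ((c0 * s : ℚ) : ℚ_[p]) ^ 2 - ((-c0 : ℤ) : ℚ_[p]) = (4 * c0 : ℤ) * (x : ℚ_[p]) := by
    have : ((c0 : ℚ) * s) ^ 2 - (-c0 : ℤ) = (4 * c0 : ℤ) * x := by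
      push_cast; linear_combination (-(c0 : ℚ)) * h
    exact_mod_cast congrArg (fun t : ℚ => (t : ℚ_[p])) this
  rw [h1, norm_mul]
  calc ‖((4 * c0 : ℤ) : ℚ_[p])‖ * ‖(x : ℚ_[p])‖ ≤ 1 * ‖(x : ℚ_[p])‖ :=
        mul_le_mul_of_nonneg_right (Padic.norm_int_le_one _) (norm_nonneg _)
    _ < 1 := by rw [one_mul]; exact hcon

/-- (F2) the ratio `x` of two terms cannot be `p`-adically close to `1`. -/
lemma local_ne_one (c0 : ℤ) (h3 : ¬ IsSquare ((3 * c0 : ℤ) : ZMod p)) (x s : ℚ)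
    (h : 4 * x - 1 = c0 * s ^ 2) : 1 ≤ ‖(x : ℚ_[p]) - 1‖ := by
  by_contra hcon
  push Not at hcon
  apply h3
  apply isSquare_of_near p (3 * c0) (c0 * s)
  have h1 : ((c0 * s : ℚ) : ℚ_[p]) ^ 2 - ((3 * c0 : ℤ) : ℚ_[p])
      = (4 * c0 : ℤ) * ((x : ℚ_[p]) - 1) := by
    have : ((c0 : ℚ) * s) ^ 2 - (3 * c0 : ℤ) = (4 * c0 : ℤ) * (x - 1) := by
      push_cast; linear_combination (-(c0 : ℚ)) * h
    exact_mod_cast congrArg (fun t : ℚ => (t : ℚ_[p])) this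
  rw [h1, norm_mul]
  calc ‖((4 * c0 : ℤ) : ℚ_[p])‖ * ‖(x : ℚ_[p]) - 1‖ ≤ 1 * ‖(x : ℚ_[p]) - 1‖ :=
        mul_le_mul_of_nonneg_right (Padic.norm_int_le_one _) (norm_nonneg _)
    _ < 1 := by rw [one_mul]; exact hcon

/-- (F3) two consecutive large ratios are impossible. -/
lemma local_no_two (hp2 : p ≠ 2) (c0 : ℤ) (hc : ¬ IsSquare ((c0 : ℤ) : ZMod p)) (x y s t w : ℚ)
    (hx : 4 * x - 1 = c0 * s ^ 2) (hy : 4 * y - 1 = c0 * t ^ 2)
    (hxy : 4 * (x * y) - 1 = c0 * w ^ 2)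
    (hx1 : 1 < ‖(x : ℚ_[p])‖) (hy1 : 1 < ‖(y : ℚ_[p])‖) : False := by
  have h4 := norm_lt_of_four p hp2
  have hxyn : 1 < ‖(x : ℚ_[p])‖ * ‖(y : ℚ_[p])‖ := by nlinarith
  have hden : ‖(4 * (x * y) - 1 : ℚ_[p])‖ = ‖(x : ℚ_[p])‖ * ‖(y : ℚ_[p])‖ := by
    have h5 : ‖(4 * (x * y) : ℚ_[p])‖ = ‖(x : ℚ_[p])‖ * ‖(y : ℚ_[p])‖ := by
      rw [norm_mul, norm_mul, h4, one_mul]
    have h6 : ‖(4 * (x * y) : ℚ_[p])‖ ≠ ‖(-1 : ℚ_[p])‖ := by
      rw [h5, norm_neg, norm_one]; exact hxyn.ne'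
    rw [sub_eq_add_neg, Padic.add_eq_max_of_ne h6, h5, norm_neg, norm_one, max_eq_left hxyn.le]
  have hw : w ≠ 0 := by
    rintro rfl
    have h7 : (4 * (x * y) - 1 : ℚ_[p]) = 0 := by
      have : (4 * (x * y) - 1 : ℚ) = 0 := by rw [hxy]; ring
      exact_mod_cast congrArg (fun t : ℚ => (t : ℚ_[p])) this
    rw [h7, norm_zero] at hden
    linarith
  have hc0 : (c0 : ℚ) ≠ 0 := by
    intro h0
    apply hc
    have : c0 = 0 := by exact_mod_cast h0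
    rw [this]; exact ⟨0, by simp⟩
  have hden0 : (4 * (x * y) - 1 : ℚ) ≠ 0 := by
    rw [hxy]; positivity
  apply hc
  apply isSquare_of_near p c0 (c0 * s * t / (2 * w))
  have key : ((c0 * s * t / (2 * w) : ℚ) : ℚ_[p]) ^ 2 - ((c0 : ℤ) : ℚ_[p])
      = (c0 : ℤ) * ((5 - 4 * x - 4 * y) / (4 * (4 * (x * y) - 1))) := by
    have : (c0 * s * t / (2 * w) : ℚ) ^ 2 - c0
        = c0 * ((5 - 4 * x - 4 * y) / (4 * (4 * (x * y) - 1))) := by
      have e1 : (c0 * s * t / (2 * w) : ℚ) ^ 2 = c0 * ((c0 * s ^ 2) * (c0 * t ^ 2)) / (4 * (c0 * w ^ 2)) := by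
        field_simp
        ring
      rw [e1, ← hx, ← hy, ← hxy]
      have e2 : (4 * x - 1) * (4 * y - 1) = 4 * (4 * (x * y) - 1) + (5 - 4 * x - 4 * y) := by ring
      rw [e2]
      generalize 4 * (x * y) - 1 = d at hden0
      generalize 5 - 4 * x - 4 * y = e
      field_simp
      ring
    exact_mod_cast congrArg (fun t : ℚ => (t : ℚ_[p])) this
  rw [key, norm_mul, norm_div, norm_mul, h4, one_mul, hden]
  have hnum : ‖(5 - 4 * x - 4 * y : ℚ_[p])‖ < ‖(x : ℚ_[p])‖ * ‖(y : ℚ_[p])‖ := by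
    have e1 : (5 - 4 * x - 4 * y : ℚ_[p]) = (((5 : ℤ) : ℚ_[p]) + -(4 * x)) + -(4 * y) := by
      push_cast; ring
    rw [e1]
    refine lt_of_le_of_lt (Padic.nonarchimedean _ _) (max_lt ?_ ?_)
    · refine lt_of_le_of_lt (Padic.nonarchimedean _ _) (max_lt ?_ ?_)
      · exact lt_of_le_of_lt (Padic.norm_int_le_one _) hxyn
      · rw [norm_neg, norm_mul, h4, one_mul]; nlinarith
    · rw [norm_neg, norm_mul, h4, one_mul]; nlinarith
  calc ‖((c0 : ℤ) : ℚ_[p])‖ * (‖(5 - 4 * x - 4 * y : ℚ_[p])‖ / (‖(x : ℚ_[p])‖ * ‖(y : ℚ_[p])‖))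
      ≤ 1 * (‖(5 - 4 * x - 4 * y : ℚ_[p])‖ / (‖(x : ℚ_[p])‖ * ‖(y : ℚ_[p])‖)) :=
        mul_le_mul_of_nonneg_right (Padic.norm_int_le_one _) (by positivity)
    _ < 1 := by
        rw [one_mul, div_lt_one (by linarith)]; exact hnum

/-- An infinite chain cannot have constant `c0` if `c0`, `-c0`, `3 c0` are all non-squares
modulo an odd prime `p`. -/
theorem chain_contra (hp2 : p ≠ 2) (c0 : ℤ) (hc : ¬ IsSquare ((c0 : ℤ) : ZMod p))
    (hm : ¬ IsSquare ((-c0 : ℤ) : ZMod p)) (h3 : ¬ IsSquare ((3 * c0 : ℤ) : ZMod p))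
    (r : ℕ → ℚ) (hr : ∀ n, 0 < r n)
    (h : ∀ m n, m < n → ∃ s : ℚ, 4 * r m = (1 + c0 * s ^ 2) * r n) : False := by
  have hr0 : ∀ n, (r n : ℚ_[p]) ≠ 0 := fun n => by exact_mod_cast (hr n).ne'
  have hx : ∀ m n, m < n → ∃ s : ℚ, 4 * (r m / r n) - 1 = c0 * s ^ 2 := by
    intro m n hmn
    obtain ⟨s, hs⟩ := h m n hmn
    refine ⟨s, ?_⟩
    have := (hr n).ne'
    field_simp
    linarith
  have hmono : ∀ m n, m < n → ‖(r n : ℚ_[p])‖ ≤ ‖(r m : ℚ_[p])‖ := by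
    intro m n hmn
    obtain ⟨s, hs⟩ := hx m n hmn
    have h1 := local_one_le p c0 hm _ s hs
    push_cast at h1
    rw [norm_div, one_le_div (norm_pos_iff.2 (hr0 n))] at h1
    exact h1
  have hno : ∀ m n k, m < n → n < k → ‖(r n : ℚ_[p])‖ < ‖(r m : ℚ_[p])‖ →
      ‖(r k : ℚ_[p])‖ < ‖(r n : ℚ_[p])‖ → False := by
    intro m n k hmn hnk h1 h2
    obtain ⟨s, hs⟩ := hx m n hmn
    obtain ⟨t, ht⟩ := hx n k hnk
    obtain ⟨w, hw⟩ := hx m k (hmn.trans hnk)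
    refine local_no_two p hp2 c0 hc (r m / r n) (r n / r k) s t w hs ht ?_ ?_ ?_
    · rw [← hw]
      have := (hr n).ne'
      have := (hr k).ne'
      field_simp
    · push_cast
      rw [norm_div, one_lt_div (norm_pos_iff.2 (hr0 n))]; exact h1
    · push_cast
      rw [norm_div, one_lt_div (norm_pos_iff.2 (hr0 k))]; exact h2
  have hconst : ∃ N, ∀ n, N ≤ n → ‖(r n : ℚ_[p])‖ = ‖(r N : ℚ_[p])‖ := by
    by_cases hall : ∀ n, ‖(r n : ℚ_[p])‖ = ‖(r 0 : ℚ_[p])‖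
    · exact ⟨0, fun n _ => hall n⟩
    · push Not at hall
      obtain ⟨n1, hn1⟩ := hall
      have hpos : 0 < n1 := by
        rcases Nat.eq_zero_or_pos n1 with h0 | h0
        · subst h0; exact absurd rfl hn1
        · exact h0
      have hlt : ‖(r n1 : ℚ_[p])‖ < ‖(r 0 : ℚ_[p])‖ := lt_of_le_of_ne (hmono 0 n1 hpos) hn1
      refine ⟨n1, fun n hn => ?_⟩
      rcases hn.eq_or_lt with h0 | h0
      · rw [h0]
      · rcases (hmono n1 n h0).lt_or_eq with h5 | h5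
        · exact (hno 0 n1 n hpos h0 hlt h5).elim
        · exact h5
  obtain ⟨N, hN⟩ := hconst
  -- units
  have hu1 : ∀ j, ‖((r (N + j) / r N : ℚ) : ℚ_[p])‖ = 1 := by
    intro j
    push_cast
    rw [norm_div, hN (N + j) (by omega), div_self (norm_ne_zero_iff.2 (hr0 N))]
  let u : ℕ → ℤ_[p] := fun j => ⟨((r (N + j) / r N : ℚ) : ℚ_[p]), (hu1 j).le⟩
  have hninj : ¬ Function.Injective (fun j => PadicInt.toZMod (u j)) :=
    not_injective_infinite_finite _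
  rw [Function.not_injective_iff] at hninj
  obtain ⟨i, j, hij, hne⟩ := hninj
  wlog hlt : i < j generalizing i j
  · exact this j i hij.symm hne.symm (lt_of_le_of_ne (not_lt.1 hlt) hne.symm)
  have hmem : u i - u j ∈ RingHom.ker (PadicInt.toZMod : ℤ_[p] →+* ZMod p) := by
    rw [RingHom.mem_ker, map_sub, sub_eq_zero]; exact hij
  rw [PadicInt.ker_toZMod, IsLocalRing.mem_maximalIdeal, PadicInt.mem_nonunits,
    PadicInt.norm_def] at hmem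
  push_cast at hmem
  obtain ⟨s, hs⟩ := hx (N + i) (N + j) (by omega)
  have h1 := local_ne_one p c0 h3 _ s hs
  have h2 : ((r (N + i) / r (N + j) : ℚ) : ℚ_[p]) - 1
      = (((r (N + i) / r N : ℚ) : ℚ_[p]) - ((r (N + j) / r N : ℚ) : ℚ_[p]))
        / ((r (N + j) / r N : ℚ) : ℚ_[p]) := by
    have a1 := hr0 N
    have a2 := hr0 (N + j)
    push_cast
    field_simp
  rw [h2, norm_div, hu1 j, div_one] at h1
  have h3 : ‖((r (N + i) / r N : ℚ) : ℚ_[p]) - ((r (N + j) / r N : ℚ) : ℚ_[p])‖ < 1 := hmem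
  linarith

end Local

end Pool.Agent.Work.MP_36d6be_co
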