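import Pool.Agent.Work.MP_36d6be_co.Omega

/-!
The prime powers dividing the denominators of a chain are small.
-/

namespace Pool.Agent.Work.MP_36d6be_co

open Finset

/-- Splitting off the square part of `a`. -/
lemma split_square (c0 B a b M : ℕ) (hc0 : 0 < c0) (hB : 0 < B) (ha : 0 < a)
    (hab : Nat.Coprime a b) (γ w : ℕ → ℤ) (hM : 0 < M) (hγ0 : 0 < γ 0)
    (hw0 : ∀ m < M, 0 ≤ w m)
    (hw : ∀ m < M, (w m) ^ 2 = c0 * B * a * (4 * γ m * b - B * a)) :
    ∃ (a0 : ℕ) (z : ℕ → ℤ), 0 < a0 ∧ a0 ∣ a ∧ a0 ∣ 4 * c0 * B * (γ 0).natAbs ∧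
      (∀ m < M, 0 ≤ z m) ∧
      ∀ m < M, (z m) ^ 2 = c0 * B * a0 * (4 * γ m * b - B * a) := by
  obtain ⟨a0, A, hA, hsf⟩ := Nat.sq_mul_squarefree a
  have ha0 : 0 < a0 := Nat.pos_of_ne_zero hsf.ne_zero
  have hApos : 0 < A := by
    rcases Nat.eq_zero_or_pos A with h | h
    · subst h; simp at hA; omega
    · exact h
  have hAZ : (A : ℤ) ≠ 0 := by exact_mod_cast hApos.ne'
  have haZ : (a : ℤ) = (A : ℤ) ^ 2 * a0 := by exact_mod_cast hA.symm
  have hz : ∀ m, ∃ z : ℤ, m < M → 0 ≤ z ∧ w m = A * z := by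
    intro m
    by_cases hm : m < M
    · have h1 : (A : ℤ) ^ 2 ∣ (w m) ^ 2 := by
        rw [hw m hm]
        refine ⟨c0 * B * a0 * (4 * γ m * b - B * a), ?_⟩
        rw [haZ]; ring
      obtain ⟨z, hz⟩ := (Int.pow_dvd_pow_iff two_ne_zero).1 h1
      refine ⟨z, fun _ => ⟨?_, hz⟩⟩
      have h2 := hw0 m hm
      rw [hz] at h2
      have h3 : (0 : ℤ) < A := by exact_mod_cast hApos
      exact nonneg_of_mul_nonneg_right h2 h3
    · exact ⟨0, fun h => absurd h hm⟩
  choose z hz using hz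
  have hz2 : ∀ m < M, (z m) ^ 2 = c0 * B * a0 * (4 * γ m * b - B * a) := by
    intro m hm
    have h1 := hw m hm
    rw [(hz m hm).2] at h1
    have h2 : (A : ℤ) ^ 2 * (z m) ^ 2 = (A : ℤ) ^ 2 * (c0 * B * a0 * (4 * γ m * b - B * a)) := by
      calc (A : ℤ) ^ 2 * (z m) ^ 2 = (A * z m) ^ 2 := by ring
        _ = c0 * B * a * (4 * γ m * b - B * a) := h1
        _ = c0 * B * ((A : ℤ) ^ 2 * a0) * (4 * γ m * b - B * a) := by rw [← haZ]
        _ = _ := by ring
    exact mul_left_cancel₀ (pow_ne_zero 2 hAZ) h2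
  refine ⟨a0, z, ha0, ⟨A ^ 2, by rw [← hA]; ring⟩, ?_, fun m hm => (hz m hm).1, hz2⟩
  -- `a0` divides `4 c0 B γ 0`
  have ha0Z : (a0 : ℤ) ≠ 0 := by exact_mod_cast ha0.ne'
  have hsfZ : Squarefree (a0 : ℤ) := Int.squarefree_natCast.2 hsf
  have h1 : (a0 : ℤ) ∣ z 0 := by
    rw [← hsfZ.dvd_pow_iff_dvd two_ne_zero, hz2 0 hM]
    exact ⟨c0 * B * (4 * γ 0 * b - B * a), by ring⟩
  have h2 : (a0 : ℤ) * a0 ∣ a0 * (c0 * B * (4 * γ 0 * b - B * a)) := by
    have h3 : (a0 : ℤ) * a0 ∣ (z 0) ^ 2 := by rw [sq]; exact mul_dvd_mul h1 h1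
    rw [hz2 0 hM] at h3
    convert h3 using 1; ring
  have h3 : (a0 : ℤ) ∣ c0 * B * (4 * γ 0 * b - B * a) := (mul_dvd_mul_iff_left ha0Z).1 h2
  have h4 : (a0 : ℤ) ∣ (4 * c0 * B * γ 0) * b := by
    have h5 : (a0 : ℤ) ∣ c0 * B * (B * a) := by
      rw [haZ]; exact ⟨c0 * B * (B * (A : ℤ) ^ 2), by ring⟩
    have e : (4 * c0 * B * γ 0 : ℤ) * b = c0 * B * (4 * γ 0 * b - B * a) + c0 * B * (B * a) := by
      ring
    rw [e]
    exact dvd_add h3 h5
  have hcop : IsCoprime (a0 : ℤ) (b : ℤ) := by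
    rw [Nat.isCoprime_iff_coprime]
    exact Nat.Coprime.coprime_dvd_left ⟨A ^ 2, by rw [← hA]; ring⟩ hab
  have h5 := hcop.dvd_of_dvd_mul_right h4
  have h6 := Int.natAbs_dvd_natAbs.2 h5
  simpa [Int.natAbs_mul] using h6

/-- A Bessel-type inequality for almost orthogonal sign functions on a weighted finite set. -/
lemma bessel (Big : Finset ℕ) (L : ℕ → ℝ) (hL : ∀ q, 0 ≤ L q) (ε : ℕ → ℕ → ℝ) (C1 T : ℝ)
    (M R : ℕ) (hR : 0 < R) (hRM : 2 * R ≤ M + 1) (hε : ∀ m q, ε m q = 1 ∨ ε m q = -1)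
    (hC1 : 0 ≤ C1)
    (horth : ∀ m < M, ∀ n < M, m ≠ n → ∑ q ∈ Big, L q * (ε m q * ε n q) ≤ C1)
    (htot_le : ∑ q ∈ Big, L q ≤ T) (hT : 0 ≤ T) (p : ℕ) (hp : p ∈ Big) :
    L p ≤ T / R + C1 := by
  classical
  have hdiag : ∀ m, ∑ q ∈ Big, L q * (ε m q * ε m q) ≤ T := by
    intro m
    have : ∀ q, ε m q * ε m q = 1 := by
      intro q; rcases hε m q with h | h <;> rw [h] <;> norm_num
    simp only [this, mul_one]
    exact htot_le
  -- a large set of indices with the same sign at `p`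
  obtain ⟨I, hIM, hIR, s, hs, hIs⟩ : ∃ I ⊆ range M, R ≤ I.card ∧ ∃ s : ℝ, s * s = 1 ∧
      ∀ m ∈ I, ε m p = s := by
    set I1 := (range M).filter (fun m => ε m p = 1) with hI1
    set I2 := (range M).filter (fun m => ¬ ε m p = 1) with hI2
    have hcard : I1.card + I2.card = M := by
      have := card_filter_add_card_filter_not (s := range M) (fun m => ε m p = 1)
      rw [card_range] at this
      exact this
    by_cases h1 : R ≤ I1.card
    · exact ⟨I1, filter_subset _ _, h1, 1, by norm_num, fun m hm => (mem_filter.1 hm).2⟩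
    · exact ⟨I2, filter_subset _ _, by omega, -1, by norm_num,
        fun m hm => (hε m p).resolve_left (mem_filter.1 hm).2⟩
  have hIpos : 0 < I.card := by omega
  have hIR' : (0 : ℝ) < I.card := by exact_mod_cast hIpos
  -- double sum
  have hlow : (I.card : ℝ) ^ 2 * L p ≤ ∑ q ∈ Big, L q * (∑ m ∈ I, ε m q) ^ 2 := by
    have h1 : (I.card : ℝ) ^ 2 * L p = L p * (∑ m ∈ I, ε m p) ^ 2 := by
      rw [sum_congr rfl hIs, sum_const, nsmul_eq_mul]
      linear_combination (-(I.card : ℝ) ^ 2 * L p) * hs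
    rw [h1]
    exact single_le_sum (f := fun q => L q * (∑ m ∈ I, ε m q) ^ 2)
      (fun q _ => mul_nonneg (hL q) (sq_nonneg _)) hp
  have hexp : ∑ q ∈ Big, L q * (∑ m ∈ I, ε m q) ^ 2
      = ∑ m ∈ I, ∑ n ∈ I, ∑ q ∈ Big, L q * (ε m q * ε n q) := by
    have h1 : ∀ q, L q * (∑ m ∈ I, ε m q) ^ 2 = ∑ m ∈ I, ∑ n ∈ I, L q * (ε m q * ε n q) := by
      intro q
      rw [sq, sum_mul_sum, mul_sum]
      apply sum_congr rfl
      intro m _
      rw [mul_sum]
    simp only [h1]
    rw [sum_comm]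
    apply sum_congr rfl
    intro m _
    rw [sum_comm]
  have hup : ∑ m ∈ I, ∑ n ∈ I, ∑ q ∈ Big, L q * (ε m q * ε n q)
      ≤ ∑ m ∈ I, ∑ n ∈ I, (C1 + if m = n then T else 0) := by
    apply sum_le_sum
    intro m hm
    apply sum_le_sum
    intro n hn
    split_ifs with h
    · subst h
      have h1 := hdiag m
      linarith
    · have := horth m (mem_range.1 (hIM hm)) n (mem_range.1 (hIM hn)) h
      linarith
  have hval : ∑ m ∈ I, ∑ n ∈ I, (C1 + if m = n then T else 0)
      = (I.card : ℝ) ^ 2 * C1 + I.card * T := by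
    have h1 : ∀ m ∈ I, ∑ n ∈ I, (C1 + if m = n then T else 0)
        = I.card * C1 + T := by
      intro m hm
      rw [sum_add_distrib, sum_const, nsmul_eq_mul, sum_ite_eq, if_pos hm]
    rw [sum_congr rfl h1, sum_const, nsmul_eq_mul]
    ring
  have hfinal : (I.card : ℝ) ^ 2 * L p ≤ (I.card : ℝ) ^ 2 * C1 + I.card * T := by
    rw [← hval]
    exact hlow.trans (by rw [hexp]; exact hup)
  have hLp : L p ≤ C1 + T / I.card := by
    have h1 : (I.card : ℝ) ^ 2 * L p ≤ (I.card : ℝ) ^ 2 * (C1 + T / I.card) := by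
      refine hfinal.trans (le_of_eq ?_)
      field_simp
    exact le_of_mul_le_mul_left h1 (by positivity)
  have hRR : T / I.card ≤ T / R := by
    apply div_le_div_of_nonneg_left hT
    · exact_mod_cast hR
    · exact_mod_cast hIR
  linarith

/-- Bound for every large prime power of `b`. -/
lemma smooth_core (c0 B a b M G : ℕ) (hc0 : 0 < c0) (hB : 0 < B) (ha : 0 < a) (hb : 0 < b)
    (hab : Nat.Coprime a b) (γ w : ℕ → ℤ)
    (hγ : ∀ m < M, 0 < γ m ∧ γ m ≤ G) (hinj : ∀ m < M, ∀ n < M, γ m = γ n → m = n)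
    (hw0 : ∀ m < M, 0 ≤ w m)
    (hw : ∀ m < M, (w m) ^ 2 = c0 * B * a * (4 * γ m * b - B * a))
    (K : ℕ) (hK : K = 4 * c0 * B ^ 2 * (4 * c0 * B * (γ 0).natAbs))
    (R : ℕ) (hR : 0 < R) (hRM : 2 * R ≤ M + 1)
    (p : ℕ) (hp : p ∈ b.primeFactors) (hpK : K.factorization p < b.factorization p) :
    (b.factorization p : ℝ) * Real.log p ≤
      Real.log b / R + (3 * Real.log K + Real.log (4 * K * G)) := by
  classical
  have hM : 0 < M := by omega
  have hγ0 := (hγ 0 hM).1
  have hγ0n : 0 < (γ 0).natAbs := Int.natAbs_pos.2 hγ0.ne'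
  have hG1 : 0 < G := by
    have := (hγ 0 hM).2
    have : (0 : ℤ) < G := by linarith
    exact_mod_cast this
  obtain ⟨a0, z, ha0, ha0a, ha0d, hz0, hz⟩ :=
    split_square c0 B a b M hc0 hB ha hab γ w hM hγ0 hw0 hw
  have hKpos : 0 < K := by rw [hK]; positivity
  obtain ⟨K', hK'⟩ : ∃ K' : ℕ, K' = 4 * c0 * B ^ 2 * a0 := ⟨_, rfl⟩
  have hK'pos : 0 < K' := by rw [hK']; positivity
  have hK'K : K' ∣ K := by
    rw [hK, hK']; exact mul_dvd_mul_left _ ha0d
  obtain ⟨Big, hBig⟩ : ∃ Big : Finset ℕ, Big =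
      b.primeFactors.filter (fun p => K.factorization p < b.factorization p) := ⟨_, rfl⟩
  have hpBig : p ∈ Big := by rw [hBig, mem_filter]; exact ⟨hp, hpK⟩
  have hprime : ∀ q ∈ Big, q.Prime := fun q hq =>
    Nat.prime_of_mem_primeFactors (mem_filter.1 (hBig ▸ hq)).1
  -- sign alternative
  have halt : ∀ m < M, ∀ q ∈ Big, ((q : ℕ) : ℤ) ^ (b.factorization q) ∣ K * (z m - z 0) ∨
      ((q : ℕ) : ℤ) ^ (b.factorization q) ∣ K * (z m + z 0) := by
    intro m hm q hq
    rw [hBig, mem_filter] at hq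
    have hqp : q.Prime := Nat.prime_of_mem_primeFactors hq.1
    have hqb : ((q : ℕ) : ℤ) ^ (b.factorization q) ∣ (b : ℤ) := by
      exact_mod_cast Nat.ordProj_dvd b q
    have hqa : ¬ ((q : ℕ) : ℤ) ∣ (a : ℤ) := by
      intro h
      have h1 : q ∣ a := by exact_mod_cast h
      have h2 : q ∣ b := Nat.dvd_of_mem_primeFactors hq.1
      have h3 := Nat.dvd_gcd h1 h2
      rw [hab] at h3
      exact hqp.one_lt.ne' (Nat.dvd_one.1 h3)
    have hfac : K'.factorization q < b.factorization q :=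
      lt_of_le_of_lt ((Nat.factorization_le_iff_dvd hK'pos.ne' hKpos.ne').2 hK'K q) hq.2
    have h4 := prime_pow_alt hqp K' _ hK'pos.ne' hfac (z m - z 0) (z m + z 0) a
      (16 * c0 * B * a0 * γ m * b) ?_ hqa ?_ ?_
    · obtain ⟨e, he⟩ := hK'K
      have heZ : (K : ℤ) = K' * e := by exact_mod_cast he
      rcases h4 with h5 | h5
      · left; rw [heZ]
        have : (K' : ℤ) * e * (z m - z 0) = e * (K' * (z m - z 0)) := by ring
        rw [this]; exact h5.mul_left _
      · right; rw [heZ]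
        have : (K' : ℤ) * e * (z m + z 0) = e * (K' * (z m + z 0)) := by ring
        rw [this]; exact h5.mul_left _
    · have : (z m - z 0) * (z m + z 0) = 4 * c0 * B * a0 * (γ m - γ 0) * b := by
        have e1 := hz m hm
        have e2 := hz 0 hM
        linear_combination e1 - e2
      rw [this]
      exact hqb.mul_left _
    · exact hqb.mul_left _
    · have e1 := hz m hm
      rw [hK']; push_cast
      linear_combination 4 * e1
  obtain ⟨sg, hsg⟩ : ∃ sg : ℕ → ℕ → Prop, ∀ m q, sg m q ↔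
      ((q : ℕ) : ℤ) ^ (b.factorization q) ∣ K * (z m - z 0) := ⟨_, fun _ _ => Iff.rfl⟩
  obtain ⟨ε, hεdef⟩ : ∃ ε : ℕ → ℕ → ℝ, ∀ m q, ε m q = if sg m q then 1 else -1 :=
    ⟨_, fun _ _ => rfl⟩
  obtain ⟨L, hLdef⟩ : ∃ L : ℕ → ℝ, ∀ q, L q = (b.factorization q : ℝ) * Real.log q :=
    ⟨_, fun _ => rfl⟩
  have hL : ∀ q, 0 ≤ L q := fun q => by
    rw [hLdef]; exact mul_nonneg (by positivity) (Real.log_natCast_nonneg q)
  -- logarithm of products of prime powers
  have hlogprod : ∀ s : Finset ℕ, s ⊆ b.primeFactors →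
      Real.log ((∏ q ∈ s, q ^ (b.factorization q) : ℕ) : ℝ) = ∑ q ∈ s, L q := by
    intro s hs
    push_cast
    rw [Real.log_prod]
    · apply sum_congr rfl
      intro q _
      rw [Real.log_pow, hLdef]
    · intro q hq
      have := (Nat.prime_of_mem_primeFactors (hs hq)).pos
      positivity
  have hcoprime : ∀ s : Finset ℕ, s ⊆ b.primeFactors →
      (s : Set ℕ).Pairwise (fun x y => IsCoprime ((x : ℤ) ^ (b.factorization x))
        ((y : ℤ) ^ (b.factorization y))) := by
    intro s hs x hx y hy hxy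
    apply IsCoprime.pow
    rw [Nat.isCoprime_iff_coprime]
    exact (Nat.coprime_primes (Nat.prime_of_mem_primeFactors (hs hx))
      (Nat.prime_of_mem_primeFactors (hs hy))).2 hxy
  have hBigsub : Big ⊆ b.primeFactors := by rw [hBig]; exact filter_subset _ _
  -- total weight of the large primes
  have htot_le : ∑ q ∈ Big, L q ≤ Real.log b := by
    rw [← hlogprod Big hBigsub]
    have hdvd : (∏ q ∈ Big, q ^ (b.factorization q)) ∣ b := by
      conv_rhs => rw [← Nat.prod_factorization_pow_eq_self hb.ne']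
      rw [Finsupp.prod, Nat.support_factorization]
      exact prod_dvd_prod_of_subset _ _ _ hBigsub
    have hpos : 0 < ∏ q ∈ Big, q ^ (b.factorization q) := Nat.pos_of_dvd_of_pos hdvd hb
    apply Real.log_le_log
    · exact_mod_cast hpos
    · exact_mod_cast Nat.le_of_dvd hb hdvd
  have htot_ge : Real.log b - Real.log K ≤ ∑ q ∈ Big, L q := by
    have hsplit : b = (∏ q ∈ Big, q ^ (b.factorization q)) *
        ∏ q ∈ b.primeFactors.filter (fun p => ¬ K.factorization p < b.factorization p),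
          q ^ (b.factorization q) := by
      rw [hBig, prod_filter_mul_prod_filter_not]
      conv_lhs => rw [← Nat.prod_factorization_pow_eq_self hb.ne']
      rw [Finsupp.prod, Nat.support_factorization]
    obtain ⟨s, hs⟩ : ∃ s : Finset ℕ, s =
        b.primeFactors.filter (fun p => ¬ K.factorization p < b.factorization p) := ⟨_, rfl⟩
    rw [← hs] at hsplit
    have hsK : (∏ q ∈ s, q ^ (b.factorization q)) ∣ K := by
      have h1 : ((∏ q ∈ s, q ^ (b.factorization q) : ℕ) : ℤ) ∣ (K : ℤ) := by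
        push_cast
        apply Finset.prod_dvd_of_coprime
        · exact hcoprime s (by rw [hs]; exact filter_subset _ _)
        · intro q hq
          rw [hs, mem_filter] at hq
          have hqp := Nat.prime_of_mem_primeFactors hq.1
          have : q ^ (b.factorization q) ∣ K :=
            (hqp.pow_dvd_iff_le_factorization hKpos.ne').2 (not_lt.1 hq.2)
          exact_mod_cast this
      exact_mod_cast h1
    have hspos : 0 < ∏ q ∈ s, q ^ (b.factorization q) := Nat.pos_of_dvd_of_pos hsK hKpos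
    have hBpos : 0 < ∏ q ∈ Big, q ^ (b.factorization q) := by
      apply prod_pos
      intro q hq
      exact pow_pos (hprime q hq).pos _
    have h2 : Real.log b = (∑ q ∈ Big, L q)
        + Real.log ((∏ q ∈ s, q ^ (b.factorization q) : ℕ) : ℝ) := by
      rw [← hlogprod Big hBigsub]
      rw [← Real.log_mul (by exact_mod_cast hBpos.ne') (by exact_mod_cast hspos.ne')]
      congr 1
      exact_mod_cast hsplit
    have h3 : Real.log ((∏ q ∈ s, q ^ (b.factorization q) : ℕ) : ℝ) ≤ Real.log K := by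
      apply Real.log_le_log
      · exact_mod_cast hspos
      · exact_mod_cast Nat.le_of_dvd hKpos hsK
    linarith
  obtain ⟨C1, hC1⟩ : ∃ C1 : ℝ, C1 = 3 * Real.log K + Real.log (4 * K * G) := ⟨_, rfl⟩
  rw [← hC1, ← hLdef]
  have hK1 : (1 : ℝ) ≤ K := by exact_mod_cast hKpos
  have hG1R : (1 : ℝ) ≤ G := by exact_mod_cast hG1
  have hlogK : 0 ≤ Real.log K := Real.log_nonneg hK1
  have hlogKG : 0 ≤ Real.log (4 * K * G) := by
    apply Real.log_nonneg
    nlinarith
  have hC1nn : 0 ≤ C1 := by rw [hC1]; linarith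
  -- near orthogonality
  have horth : ∀ m < M, ∀ n < M, m ≠ n → ∑ q ∈ Big, L q * (ε m q * ε n q) ≤ C1 := by
    intro m hm n hn hmn
    obtain ⟨Ag, hAg⟩ : ∃ Ag : Finset ℕ, Ag = Big.filter (fun q => (sg m q ↔ sg n q)) :=
      ⟨_, rfl⟩
    have hAgsub : Ag ⊆ b.primeFactors := by
      rw [hAg]; exact (filter_subset _ _).trans hBigsub
    have hdvd : ((∏ q ∈ Ag, q ^ (b.factorization q) : ℕ) : ℤ) ∣ K * (z m - z n) := by
      push_cast
      apply Finset.prod_dvd_of_coprime
      · exact hcoprime Ag hAgsub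
      · intro q hq
        rw [hAg, mem_filter] at hq
        by_cases h3 : sg m q
        · have h4 : sg n q := hq.2.1 h3
          have e : (K : ℤ) * (z m - z n) = K * (z m - z 0) - K * (z n - z 0) := by ring
          rw [e]
          exact dvd_sub ((hsg m q).1 h3) ((hsg n q).1 h4)
        · have h4 : ¬ sg n q := fun h => h3 (hq.2.2 h)
          have h5 := (halt m hm q hq.1).resolve_left (fun h => h3 ((hsg m q).2 h))
          have h6 := (halt n hn q hq.1).resolve_left (fun h => h4 ((hsg n q).2 h))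
          have e : (K : ℤ) * (z m - z n) = K * (z m + z 0) - K * (z n + z 0) := by ring
          rw [e]
          exact dvd_sub h5 h6
    have hzne : z m ≠ z n := by
      intro h
      have e1 := hz m hm
      have e2 := hz n hn
      rw [h, e2] at e1
      have h2 : (c0 * B * a0 * 4 * b : ℤ) * (γ n - γ m) = 0 := by linear_combination e1
      have h3 : (c0 * B * a0 * 4 * b : ℤ) ≠ 0 := by positivity
      have h4 : γ n - γ m = 0 := (mul_eq_zero.1 h2).resolve_left h3
      exact hmn (hinj m hm n hn (by linarith))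
    have hle : ((∏ q ∈ Ag, q ^ (b.factorization q) : ℕ) : ℤ) ≤ |K * (z m - z n)| := by
      have hne : (K : ℤ) * (z m - z n) ≠ 0 := by
        have : (K : ℤ) ≠ 0 := by exact_mod_cast hKpos.ne'
        exact mul_ne_zero this (sub_ne_zero.2 hzne)
      exact Int.le_of_dvd (abs_pos.2 hne) ((dvd_abs _ _).2 hdvd)
    have hEK : (c0 * B * a0 : ℤ) ≤ K := by
      have h1 : c0 * B * a0 ≤ K' := by
        rw [hK']
        have hB1 : 1 ≤ B := hB
        calc c0 * B * a0 = 1 * (c0 * B * a0) := by ring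
          _ ≤ (4 * B) * (c0 * B * a0) := Nat.mul_le_mul_right _ (by omega)
          _ = 4 * c0 * B ^ 2 * a0 := by ring
      have h2 : K' ≤ K := Nat.le_of_dvd hKpos hK'K
      exact_mod_cast h1.trans h2
    have hsq : ∀ m < M, (z m) ^ 2 ≤ 4 * K * G * b := by
      intro m hm
      rw [hz m hm]
      have h1 := (hγ m hm).2
      have h3 : (γ m : ℤ) * b ≤ G * b := mul_le_mul_of_nonneg_right h1 (by positivity)
      have h4 : (0 : ℤ) ≤ B * a := by positivity
      calc (c0 * B * a0 * (4 * γ m * b - B * a) : ℤ) ≤ c0 * B * a0 * (4 * G * b) := by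
            apply mul_le_mul_of_nonneg_left _ (by positivity)
            nlinarith
        _ ≤ K * (4 * G * b) := mul_le_mul_of_nonneg_right hEK (by positivity)
        _ = 4 * K * G * b := by ring
    have hsqd : (z m - z n) ^ 2 ≤ 4 * K * G * b := by
      have h1 := hsq m hm
      have h2 := hsq n hn
      have h3 := hz0 m hm
      have h4 := hz0 n hn
      rcases le_total (z m) (z n) with h | h
      · calc (z m - z n) ^ 2 ≤ (z n) ^ 2 := by nlinarith
          _ ≤ _ := h2
      · calc (z m - z n) ^ 2 ≤ (z m) ^ 2 := by nlinarith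
          _ ≤ _ := h1
    obtain ⟨Pr, hPr⟩ : ∃ Pr : ℕ, Pr = ∏ q ∈ Ag, q ^ (b.factorization q) := ⟨_, rfl⟩
    rw [← hPr] at hle
    have hPrpos : 0 < Pr := by
      rw [hPr]
      apply prod_pos
      intro q hq
      exact pow_pos (Nat.prime_of_mem_primeFactors (hAgsub hq)).pos _
    have hfin : (Pr : ℤ) ^ 2 ≤ K ^ 2 * (4 * K * G * b) := by
      calc (Pr : ℤ) ^ 2 ≤ |K * (z m - z n)| ^ 2 := by
            apply pow_le_pow_left₀ (by positivity) hle
        _ = K ^ 2 * (z m - z n) ^ 2 := by rw [sq_abs]; ring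
        _ ≤ _ := mul_le_mul_of_nonneg_left hsqd (by positivity)
    have hfinR : (Pr : ℝ) ^ 2 ≤ (K : ℝ) ^ 2 * ((4 * K * G) * b) := by exact_mod_cast hfin
    have hbR : (0 : ℝ) < b := by exact_mod_cast hb
    have hlog : 2 * ∑ q ∈ Ag, L q ≤ 2 * Real.log K + (Real.log (4 * K * G) + Real.log b) := by
      rw [← hlogprod Ag hAgsub, ← hPr]
      have h1 := Real.log_le_log (by positivity) hfinR
      rw [Real.log_pow, Real.log_mul (by positivity) (by positivity), Real.log_pow,
        Real.log_mul (by positivity) (by positivity)] at h1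
      push_cast at h1
      exact h1
    have hsum : ∑ q ∈ Big, L q * (ε m q * ε n q) = 2 * (∑ q ∈ Ag, L q) - ∑ q ∈ Big, L q := by
      have h1 : ∑ q ∈ Ag, L q = ∑ q ∈ Big, if (sg m q ↔ sg n q) then L q else 0 := by
        rw [hAg, sum_filter]
      rw [h1, mul_sum, ← sum_sub_distrib]
      apply sum_congr rfl
      intro q _
      rw [hεdef, hεdef]
      by_cases h2 : sg m q
      · by_cases h3 : sg n q
        · rw [if_pos h2, if_pos h3, if_pos (iff_of_true h2 h3)]; ring
        · rw [if_pos h2, if_neg h3, if_neg (fun h => h3 (h.1 h2))]; ring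
      · by_cases h3 : sg n q
        · rw [if_neg h2, if_pos h3, if_neg (fun h => h2 (h.2 h3))]; ring
        · rw [if_neg h2, if_neg h3, if_pos (iff_of_false h2 h3)]; ring
    rw [hsum, hC1]
    linarith
  have hlogb : 0 ≤ Real.log b := Real.log_natCast_nonneg b
  have hε : ∀ m q, ε m q = 1 ∨ ε m q = -1 := by
    intro m q
    rw [hεdef]
    by_cases h : sg m q
    · left; exact if_pos h
    · right; exact if_neg h
  exact bessel Big L hL ε C1 (Real.log b) M R hR hRM hε hC1nn horth htot_le hlogb p hpBig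

end Pool.Agent.Work.MP_36d6be_co
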