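import Pool.Agent.Work.MP_36d6be_co.Main
import Pool.Agent.Work.MP_36d6be_co.Smooth

/-!
Uncountable rational-area sets have areas with very smooth denominators.
-/

namespace Pool.Agent.Work.MP_36d6be_co

open Filter Topology

lemma nat_split {p : ℕ} (hp : p.Prime) (n : ℕ) (hn : 0 < n) :
    ∃ n' : ℕ, n = p ^ (n.factorization p) * n' ∧ ¬ p ∣ n' := by
  obtain ⟨n', hn'⟩ := Nat.ordProj_dvd n p
  refine ⟨n', hn', fun h1 => ?_⟩
  apply Nat.pow_succ_factorization_not_dvd hn.ne' hp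
  rw [pow_succ]
  obtain ⟨n'', rfl⟩ := h1
  exact ⟨n'', by rw [mul_assoc]; exact hn'⟩

lemma big_pow_dvd_den (p : ℕ) (hp : p.Prime) (c0 B a b : ℕ) (hB : 0 < B) (hc0 : 0 < c0)
    (hb : 0 < b) (hab : Nat.Coprime a b) (hpb : p ∣ b) (γ x : ℤ) (y : ℕ)
    (hv : (4 * c0 * B ^ 2).factorization p < b.factorization p)
    (h : 16 * (c0 : ℤ) * B * x ^ 2 * b ^ 2 = y ^ 2 * a * (4 * γ * b - B * a)) :
    p ^ (b.factorization p) ∣ y := by
  have hpZ : Prime (p : ℤ) := Nat.prime_iff_prime_int.1 hp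
  have hpa : ¬ ((p : ℕ) : ℤ) ∣ (a : ℤ) := by
    intro h
    have h1 : p ∣ a := by exact_mod_cast h
    have h3 := Nat.dvd_gcd h1 hpb
    rw [hab] at h3
    exact hp.one_lt.ne' (Nat.dvd_one.1 h3)
  obtain ⟨B', hB', hB'nd⟩ := nat_split hp B hB
  obtain ⟨b', hb', hb'nd⟩ := nat_split hp b hb
  have hβv : B.factorization p < b.factorization p := by
    refine lt_of_le_of_lt ?_ hv
    rw [← hp.pow_dvd_iff_le_factorization (by positivity)]
    exact ((Nat.ordProj_dvd B p).trans (dvd_pow_self B two_ne_zero)).mul_left _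
  generalize hβ : B.factorization p = β at *
  generalize hvv : b.factorization p = v at *
  have hBZ : (B : ℤ) = (p : ℤ) ^ β * B' := by exact_mod_cast hB'
  have hbZ : (b : ℤ) = (p : ℤ) ^ v * b' := by exact_mod_cast hb'
  obtain ⟨e, rfl⟩ := Nat.exists_eq_add_of_lt hβv
  have hu : ¬ (p : ℤ) ∣ a * (4 * γ * (p : ℤ) ^ (e + 1) * b' - B' * a) := by
    intro h1
    rcases hpZ.dvd_or_dvd h1 with h2 | h2
    · exact hpa h2
    · have h3 : (p : ℤ) ∣ 4 * γ * (p : ℤ) ^ (e + 1) * b' := ⟨4 * γ * (p : ℤ) ^ e * b', by ring⟩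
      have h4 : (p : ℤ) ∣ B' * a := by
        have := dvd_sub h3 h2
        simpa using this
      rcases hpZ.dvd_or_dvd h4 with h5 | h5
      · exact hB'nd (by exact_mod_cast h5)
      · exact hpa h5
  have hcancel : (p : ℤ) ^ β * (16 * c0 * B' * x ^ 2 * b' ^ 2 * ((p : ℤ) ^ (β + e + 1)) ^ 2)
      = (p : ℤ) ^ β * ((y : ℤ) ^ 2 * (a * (4 * γ * (p : ℤ) ^ (e + 1) * b' - B' * a))) := by
    rw [hBZ, hbZ] at h
    calc _ = 16 * (c0 : ℤ) * ((p : ℤ) ^ β * B') * x ^ 2 * ((p : ℤ) ^ (β + e + 1) * b') ^ 2 := by ring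
      _ = _ := h
      _ = _ := by ring
  have h1 := mul_left_cancel₀ (pow_ne_zero β hpZ.ne_zero) hcancel
  have h2 : ((p : ℤ) ^ (β + e + 1)) ^ 2 ∣
      (y : ℤ) ^ 2 * (a * (4 * γ * (p : ℤ) ^ (e + 1) * b' - B' * a)) := by
    rw [← h1]; exact dvd_mul_left _ _
  have hcop : IsCoprime (((p : ℤ) ^ (β + e + 1)) ^ 2)
      (a * (4 * γ * (p : ℤ) ^ (e + 1) * b' - B' * a)) := by
    apply IsCoprime.pow_left
    apply IsCoprime.pow_left
    exact (Prime.coprime_iff_not_dvd hpZ).2 hu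
  have h3 := hcop.dvd_of_dvd_mul_right h2
  have h4 := (Int.pow_dvd_pow_iff two_ne_zero).1 h3
  exact_mod_cast h4

lemma big_mod (p : ℕ) (hp : p.Prime) (c0 B a b : ℕ) (hB : 0 < B) (hc0 : c0 = 1 ∨ c0 = 3)
    (hab : Nat.Coprime a b) (hpb : p ∣ b) (γ w : ℤ)
    (hv : (4 * c0 * B ^ 2).factorization p < b.factorization p)
    (h : w ^ 2 = c0 * B * a * (4 * γ * b - B * a)) : p % 12 ≠ 11 := by
  intro h12
  have hpF : Fact p.Prime := ⟨hp⟩
  have hc0pos : 0 < c0 := by rcases hc0 with rfl | rfl <;> norm_num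
  have hpZ : Prime (p : ℤ) := Nat.prime_iff_prime_int.1 hp
  have hpa : ¬ p ∣ a := by
    intro h1
    have h3 := Nat.dvd_gcd h1 hpb
    rw [hab] at h3
    exact hp.one_lt.ne' (Nat.dvd_one.1 h3)
  obtain ⟨B', hB', hB'nd⟩ := nat_split hp B hB
  set β := B.factorization p with hβ
  have hκ : 2 * β ≤ (4 * c0 * B ^ 2).factorization p := by
    rw [← hp.pow_dvd_iff_le_factorization (by positivity)]
    have : p ^ (2 * β) ∣ B ^ 2 := by
      rw [mul_comm, pow_mul]
      exact pow_dvd_pow_of_dvd (Nat.ordProj_dvd B p) 2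
    exact this.mul_left _
  have hpbv : ((p : ℕ) : ℤ) ^ (2 * β + 1) ∣ (b : ℤ) := by
    have : p ^ (2 * β + 1) ∣ b := (pow_dvd_pow p (by omega)).trans (Nat.ordProj_dvd b p)
    exact_mod_cast this
  have h1 : ((p : ℕ) : ℤ) ^ (2 * β + 1) ∣ w ^ 2 + c0 * (B * a) ^ 2 := by
    have e : w ^ 2 + c0 * (B * a) ^ 2 = (4 * c0 * B * γ * a) * b := by linear_combination h
    rw [e]; exact hpbv.mul_left _
  have hBZ : (B : ℤ) = (p : ℤ) ^ β * B' := by exact_mod_cast hB'
  have h2 : ((p : ℤ) ^ β) ^ 2 ∣ w ^ 2 := by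
    have h3 : ((p : ℕ) : ℤ) ^ (2 * β) ∣ w ^ 2 + c0 * (B * a) ^ 2 :=
      (pow_dvd_pow _ (by omega)).trans h1
    have h4 : ((p : ℕ) : ℤ) ^ (2 * β) ∣ c0 * (B * a) ^ 2 := by
      rw [hBZ]
      exact ⟨c0 * (B' * a) ^ 2, by ring⟩
    have h5 := dvd_sub h3 h4
    rw [← pow_mul, mul_comm β 2]
    simpa using h5
  have h3 : (p : ℤ) ^ β ∣ w := (Int.pow_dvd_pow_iff two_ne_zero).1 h2
  obtain ⟨w', rfl⟩ := h3
  have h4 : (p : ℤ) ∣ w' ^ 2 + c0 * (B' * a) ^ 2 := by
    rw [hBZ] at h1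
    have e : ((p : ℤ) ^ β * w') ^ 2 + c0 * ((p : ℤ) ^ β * B' * a) ^ 2
        = (p : ℤ) ^ (2 * β) * (w' ^ 2 + c0 * (B' * a) ^ 2) := by ring
    rw [e, pow_succ] at h1
    exact (mul_dvd_mul_iff_left (pow_ne_zero _ hpZ.ne_zero)).1 h1
  have h5 : ((w' : ZMod p)) ^ 2 + c0 * (B' * a) ^ 2 = 0 := by
    have := (ZMod.intCast_zmod_eq_zero_iff_dvd _ p).2 h4
    push_cast at this
    exact this
  apply not_isSquare_neg p h12 c0 hc0
  have hne1 : (B' : ZMod p) ≠ 0 := by rw [Ne, ZMod.natCast_eq_zero_iff]; exact hB'nd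
  have hne2 : (a : ZMod p) ≠ 0 := by rw [Ne, ZMod.natCast_eq_zero_iff]; exact hpa
  refine ⟨(w' : ZMod p) / (B' * a), ?_⟩
  push_cast
  field_simp
  linear_combination (-1 : ZMod p) * h5

/-- If `p ^ j` divides `n * b` then it divides `n * p ^ v` where `p ^ v` is the exact power of `p`
in `b`. -/
lemma prime_pow_dvd_mul {p : ℕ} (hp : p.Prime) (j n b : ℕ) (hb : 0 < b) (h : p ^ j ∣ n * b) :
    p ^ j ∣ n * p ^ (b.factorization p) := by
  obtain ⟨b', hb', hnd⟩ := nat_split hp b hb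
  rw [hb', ← mul_assoc] at h
  have hcop : Nat.Coprime (p ^ j) b' := Nat.Coprime.pow_left _ ((hp.coprime_iff_not_dvd).2 hnd)
  exact hcop.dvd_of_dvd_mul_right h

/-- The denominator of `r k` divides `K` times the denominator of the area. -/
lemma den_dvd_mul (c0 B a b K : ℕ) (hB : 0 < B) (hc0 : 0 < c0)
    (hb : 0 < b) (hab : Nat.Coprime a b) (γ x : ℤ) (y : ℕ) (hK : 4 * c0 * B ^ 2 ∣ K)
    (h : 16 * (c0 : ℤ) * B * x ^ 2 * b ^ 2 = y ^ 2 * a * (4 * γ * b - B * a)) :
    b ∣ K * y := by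
  rw [Nat.dvd_iff_prime_pow_dvd_dvd]
  intro p k hp hk
  have hkb : k ≤ b.factorization p := (hp.pow_dvd_iff_le_factorization hb.ne').1 hk
  have hKp : (4 * c0 * B ^ 2) ≠ 0 := by positivity
  by_cases hv : (4 * c0 * B ^ 2).factorization p < b.factorization p
  · have hpb : p ∣ b := by
      have h1 : 0 < b.factorization p := by omega
      exact Nat.dvd_of_factorization_pos h1.ne'
    have h1 := big_pow_dvd_den p hp c0 B a b hB hc0 hb hab hpb γ x y hv h
    exact ((pow_dvd_pow p hkb).trans h1).mul_left _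
  · have h1 : p ^ k ∣ 4 * c0 * B ^ 2 :=
      (hp.pow_dvd_iff_le_factorization hKp).2 (by omega)
    exact (h1.trans hK).mul_right _

/-- If the areas of all triangles in `S` are nonzero rationals whose denominators `N` have a
divisor `d ≥ N ^ ε` that is a prime power or a product of primes congruent to `11` modulo `12`,
then `S` is countable. -/
theorem countable_of_large_divisor (ε : ℝ) (hε : 0 < ε) (S : Set L2)
    (hS : ∀ a ∈ S, ∀ b ∈ S, ∀ c ∈ S, a ≠ b → b ≠ c → a ≠ c →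
      ∃ q : ℚ, q ≠ 0 ∧ area a b c = (q : ℝ) ∧
        ∃ d : ℕ, d ∣ q.den ∧ (q.den : ℝ) ^ ε ≤ d ∧
          (IsPrimePow d ∨ ∀ p ∈ d.primeFactors, p % 12 = 11)) : S.Countable := by
  classical
  by_contra hSc
  obtain ⟨c, r, hc, hr, hanti, hr0, hq⟩ := exists_chain_of_uncountable
    (fun q => ∃ d : ℕ, d ∣ q.den ∧ (q.den : ℝ) ^ ε ≤ d ∧
          (IsPrimePow d ∨ ∀ p ∈ d.primeFactors, p % 12 = 11)) S hSc
    (fun a ha b hb c hc h1 h2 h3 => by
      obtain ⟨q, h4, h5, h6⟩ := hS a ha b hb c hc h1 h2 h3; exact ⟨q, h4, h6, h5⟩)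
  obtain ⟨c0, hc0, hcc0⟩ : ∃ c0 : ℕ, (c0 = 1 ∨ c0 = 3) ∧ c = c0 := by
    rcases hc with rfl | rfl
    · exact ⟨1, Or.inl rfl, by norm_num⟩
    · exact ⟨3, Or.inr rfl, by norm_num⟩
  have hc0pos : 0 < c0 := by rcases hc0 with rfl | rfl <;> norm_num
  subst hcc0
  -- the number of indices
  obtain ⟨R, hR, hRε⟩ : ∃ R : ℕ, 0 < R ∧ (1 : ℝ) / R ≤ ε / 2 := by
    obtain ⟨R, hR⟩ := exists_nat_gt (2 / ε)
    have h1 : (0 : ℝ) < 2 / ε := by positivity
    have h2 : (0 : ℝ) < R := h1.trans hR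
    refine ⟨R, by exact_mod_cast h2, ?_⟩
    rw [div_le_iff₀ h2]
    rw [div_lt_iff₀ hε] at hR
    linarith
  obtain ⟨M, hM⟩ : ∃ M : ℕ, M = 2 * R := ⟨_, rfl⟩
  obtain ⟨B, hBdef⟩ : ∃ B : ℕ, B = ∏ m ∈ Finset.range M, (r m).den := ⟨_, rfl⟩
  have hB : 0 < B := by rw [hBdef]; exact Finset.prod_pos fun m _ => (r m).den_pos
  have hγex : ∀ m, ∃ g : ℤ, m < M → (g : ℚ) = B * r m := by
    intro m
    by_cases hm : m < M
    · obtain ⟨e, he⟩ : (r m).den ∣ B := by
        rw [hBdef]; exact Finset.dvd_prod_of_mem _ (Finset.mem_range.2 hm)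
      refine ⟨e * (r m).num, fun _ => ?_⟩
      have h2 : r m * (r m).den = (r m).num := Rat.mul_den_eq_num _
      rw [he]; push_cast
      rw [← h2]; ring
    · exact ⟨0, fun h => absurd h hm⟩
  choose γ hγ using hγex
  obtain ⟨G, hG⟩ : ∃ G : ℕ, G = (γ 0).natAbs := ⟨_, rfl⟩
  have hM0 : 0 < M := by omega
  have hγpos : ∀ m < M, 0 < γ m := by
    intro m hm
    have : (0 : ℚ) < γ m := by
      rw [hγ m hm]
      have := hr m
      positivity
    exact_mod_cast this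
  have hGγ : (G : ℤ) = γ 0 := by rw [hG]; exact Int.natAbs_of_nonneg (hγpos 0 hM0).le
  have hγle : ∀ m < M, γ m ≤ G := by
    intro m hm
    rw [hGγ]
    have : (γ m : ℚ) ≤ γ 0 := by
      rw [hγ m hm, hγ 0 hM0]
      apply mul_le_mul_of_nonneg_left _ (by positivity)
      exact hanti.antitone (Nat.zero_le m)
    exact_mod_cast this
  have hGpos : 0 < G := by
    have := hγpos 0 hM0
    rw [← hGγ] at this
    exact_mod_cast this
  obtain ⟨K, hK⟩ : ∃ K : ℕ, K = 4 * c0 * B ^ 2 * (4 * c0 * B * (γ 0).natAbs) := ⟨_, rfl⟩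
  have hKpos : 0 < K := by rw [hK, ← hG]; positivity
  have hK'K : 4 * c0 * B ^ 2 ∣ K := by rw [hK]; exact dvd_mul_right _ _
  obtain ⟨C1, hC1⟩ : ∃ C1 : ℝ, C1 = 3 * Real.log K + Real.log (4 * K * G) := ⟨_, rfl⟩
  obtain ⟨C3, hC3⟩ : ∃ C3 : ℝ, C3 = Real.log ((4 * c0 * B : ℕ) : ℝ) + Real.log K + C1 :=
    ⟨_, rfl⟩
  have hK1 : (1 : ℝ) ≤ K := by exact_mod_cast hKpos
  have hG1R : (1 : ℝ) ≤ G := by exact_mod_cast hGpos
  have hlogK : 0 ≤ Real.log K := Real.log_nonneg hK1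
  have hlogKG : 0 ≤ Real.log (4 * K * G) := by
    apply Real.log_nonneg
    nlinarith
  have hC1nn : 0 ≤ C1 := by rw [hC1]; linarith
  -- choose `k`
  obtain ⟨T, hT⟩ : ∃ T : ℝ, T = (C3 + ε * Real.log K) * (2 / ε) := ⟨_, rfl⟩
  obtain ⟨k, hkM, hkT⟩ : ∃ k, M ≤ k ∧ (r k : ℝ) < Real.exp (-T) := by
    have h2 := (hr0.eventually_lt_const (Real.exp_pos (-T))).and (eventually_ge_atTop M)
    obtain ⟨k, h3, h4⟩ := h2.exists
    exact ⟨k, h4, h3⟩
  obtain ⟨a, ha_def⟩ : ∃ a : ℕ, a = (r k).num.natAbs := ⟨_, rfl⟩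
  obtain ⟨b, hb_def⟩ : ∃ b : ℕ, b = (r k).den := ⟨_, rfl⟩
  have hnum : (0 : ℤ) < (r k).num := Rat.num_pos.2 (hr k)
  have haZ : (a : ℤ) = (r k).num := by rw [ha_def]; exact Int.natAbs_of_nonneg hnum.le
  have ha : 0 < a := by
    have : (0 : ℤ) < a := by rw [haZ]; exact hnum
    exact_mod_cast this
  have hb : 0 < b := by rw [hb_def]; exact (r k).den_pos
  have hab : Nat.Coprime a b := by rw [ha_def, hb_def]; exact (r k).reduced
  have hbQ : (b : ℚ) ≠ 0 := by exact_mod_cast hb.ne'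
  have hrk : r k = a / b := by
    rw [eq_div_iff hbQ]
    have h2 : r k * (r k).den = (r k).num := Rat.mul_den_eq_num _
    rw [hb_def, h2, ← haZ]; push_cast; rfl
  have hbR : (0 : ℝ) < b := by exact_mod_cast hb
  have hlogb : T < Real.log b := by
    rw [Real.lt_log_iff_exp_lt hbR]
    have h1 : (r k : ℝ) = a / b := by rw [hrk]; push_cast; rfl
    rw [h1, div_lt_iff₀ hbR] at hkT
    have h2 : (1 : ℝ) ≤ a := by exact_mod_cast ha
    have h3 : 1 < Real.exp (-T) * b := lt_of_le_of_lt h2 hkT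
    have h4 : Real.exp T * Real.exp (-T) = 1 := by rw [← Real.exp_add]; simp
    calc Real.exp T = Real.exp T * 1 := (mul_one _).symm
      _ < Real.exp T * (Real.exp (-T) * b) := mul_lt_mul_of_pos_left h3 (Real.exp_pos T)
      _ = b := by rw [← mul_assoc, h4, one_mul]
  have hqk : ∀ m, m < M → ∃ q : ℚ, q ≠ 0 ∧
      (∃ d : ℕ, d ∣ q.den ∧ (q.den : ℝ) ^ ε ≤ d ∧
          (IsPrimePow d ∨ ∀ p ∈ d.primeFactors, p % 12 = 11)) ∧
      r k * (4 * r m - r k) = 16 * c0 * q ^ 2 := fun m hm => hq m k (by omega)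
  have hwex : ∀ m, ∃ w : ℤ, m < M → 0 ≤ w ∧ w ^ 2 = c0 * B * a * (4 * γ m * b - B * a) := by
    intro m
    by_cases hm : m < M
    · obtain ⟨q, -, -, hqe⟩ := hqk m hm
      have hsq : IsSquare (((c0 * B * a * (4 * γ m * b - B * a) : ℤ)) : ℚ) := by
        refine ⟨4 * c0 * B * b * q, ?_⟩
        push_cast
        rw [hγ m hm]
        rw [hrk] at hqe
        have e1 : (a : ℚ) * (4 * r m * b - a) = 16 * c0 * q ^ 2 * b ^ 2 := by
          rw [← hqe]; field_simp
        calc (c0 : ℚ) * B * a * (4 * (B * r m) * b - B * a)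
            = c0 * B ^ 2 * ((a : ℚ) * (4 * r m * b - a)) := by ring
          _ = c0 * B ^ 2 * (16 * c0 * q ^ 2 * b ^ 2) := by rw [e1]
          _ = 4 * c0 * B * b * q * (4 * c0 * B * b * q) := by ring
      rw [Rat.isSquare_intCast_iff] at hsq
      obtain ⟨w, hw⟩ := hsq
      exact ⟨|w|, fun _ => ⟨abs_nonneg _, by rw [sq_abs, hw]; ring⟩⟩
    · exact ⟨0, fun h => absurd h hm⟩
  choose w hw using hwex
  obtain ⟨q, hq0, ⟨d, hdN, hdε, hdP⟩, hqe⟩ := hqk 0 hM0
  have hint : 16 * (c0 : ℤ) * B * q.num ^ 2 * b ^ 2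
      = q.den ^ 2 * a * (4 * γ 0 * b - B * a) := by
    have e1 : (q.num : ℚ) = q * q.den := (Rat.mul_den_eq_num q).symm
    have : (16 * (c0 : ℚ) * B * (q.num : ℚ) ^ 2 * (b : ℚ) ^ 2)
        = (q.den : ℚ) ^ 2 * a * (4 * (γ 0 : ℚ) * b - B * a) := by
      rw [hγ 0 hM0, e1]
      rw [hrk] at hqe
      have e2 : (a : ℚ) * (4 * r 0 * b - a) = 16 * c0 * q ^ 2 * b ^ 2 := by
        rw [← hqe]; field_simp
      linear_combination (-(B : ℚ) * (q.den : ℚ) ^ 2) * e2
    exact_mod_cast this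
  -- `b ≤ K * q.den`
  have hbKN : b ≤ K * q.den :=
    Nat.le_of_dvd (Nat.mul_pos hKpos q.den_pos)
      (den_dvd_mul c0 B a b K hB hc0pos hb hab (γ 0) q.num q.den hK'K hint)
  -- `q.den ∣ 4 * c0 * B * b`
  have hNb : q.den ∣ (4 * c0 * B) * b := by
    have hw0 := (hw 0 hM0).2
    have hsq : (4 * (c0 : ℤ) * B * b * q.num) ^ 2 = (q.den * w 0) ^ 2 := by
      calc (4 * (c0 : ℤ) * B * b * q.num) ^ 2
          = c0 * B * (16 * (c0 : ℤ) * B * q.num ^ 2 * b ^ 2) := by ring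
        _ = c0 * B * (q.den ^ 2 * a * (4 * γ 0 * b - B * a)) := by rw [hint]
        _ = q.den ^ 2 * (c0 * B * a * (4 * γ 0 * b - B * a)) := by ring
        _ = q.den ^ 2 * (w 0) ^ 2 := by rw [hw0]
        _ = _ := by ring
    have h1 : (q.den : ℤ) ∣ 4 * (c0 : ℤ) * B * b * q.num := by
      rcases sq_eq_sq_iff_eq_or_eq_neg.1 hsq with h | h
      · rw [h]; exact dvd_mul_right _ _
      · rw [h, dvd_neg]; exact dvd_mul_right _ _
    have h2 : IsCoprime (q.den : ℤ) q.num := by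
      rw [Int.isCoprime_iff_gcd_eq_one, Int.gcd_eq_natAbs, Nat.gcd_comm]
      exact q.reduced
    have h3 : (q.den : ℤ) ∣ 4 * (c0 : ℤ) * B * b := h2.dvd_of_dvd_mul_right h1
    exact_mod_cast h3
  have hdb : d ∣ (4 * c0 * B) * b := hdN.trans hNb
  have hd : 0 < d := Nat.pos_of_dvd_of_pos hdN q.den_pos
  have hdR : (0 : ℝ) < d := by exact_mod_cast hd
  have h4pos : 0 < 4 * c0 * B := by positivity
  have h4R : (0 : ℝ) < ((4 * c0 * B : ℕ) : ℝ) := by exact_mod_cast h4pos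
  have hlogb0 : 0 ≤ Real.log b := Real.log_natCast_nonneg b
  -- main upper bound for `d`
  have hupper : Real.log d ≤ C3 + Real.log b / R := by
    have hlogbR : 0 ≤ Real.log b / R := by positivity
    rcases hdP with hdP | hdP
    · -- prime power
      rw [isPrimePow_nat_iff] at hdP
      obtain ⟨p, j, hp, hj, rfl⟩ := hdP
      have h1 := prime_pow_dvd_mul hp j (4 * c0 * B) b hb hdb
      have hpos : 0 < p ^ (b.factorization p) := pow_pos hp.pos _
      have h2 : p ^ j ≤ (4 * c0 * B) * p ^ (b.factorization p) :=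
        Nat.le_of_dvd (Nat.mul_pos h4pos hpos) h1
      have hpR : (0 : ℝ) < p := by exact_mod_cast hp.pos
      have h3 : Real.log ((p ^ j : ℕ) : ℝ)
          ≤ Real.log ((4 * c0 * B : ℕ) : ℝ) + (b.factorization p : ℝ) * Real.log p := by
        rw [← Real.log_pow, ← Real.log_mul h4R.ne' (pow_pos hpR _).ne']
        apply Real.log_le_log hdR
        exact_mod_cast h2
      have h4 : (b.factorization p : ℝ) * Real.log p ≤ Real.log K + (Real.log b / R + C1) := by
        by_cases hv : K.factorization p < b.factorization p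
        · have hpb : p ∈ b.primeFactors := by
            rw [Nat.mem_primeFactors]
            have h5 : 0 < b.factorization p := by omega
            exact ⟨hp, Nat.dvd_of_factorization_pos h5.ne', hb.ne'⟩
          have h5 := smooth_core c0 B a b M G hc0pos hB ha hb hab γ w
            (fun m hm => ⟨hγpos m hm, hγle m hm⟩)
            (fun m hm n hn h => by
              have h1 : (B : ℚ) * r m = B * r n := by rw [← hγ m hm, ← hγ n hn, h]
              have h2 : r m = r n := mul_left_cancel₀ (by positivity) h1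
              exact hanti.injective h2)
            (fun m hm => (hw m hm).1) (fun m hm => (hw m hm).2) K hK R hR (by omega) p hpb hv
          rw [← hC1] at h5
          linarith
        · have h5 : p ^ (b.factorization p) ∣ K :=
            (hp.pow_dvd_iff_le_factorization hKpos.ne').2 (not_lt.1 hv)
          have h6 : p ^ (b.factorization p) ≤ K := Nat.le_of_dvd hKpos h5
          have h7 : (b.factorization p : ℝ) * Real.log p ≤ Real.log K := by
            rw [← Real.log_pow]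
            apply Real.log_le_log (pow_pos hpR _)
            exact_mod_cast h6
          linarith
      rw [hC3]
      linarith
    · -- only primes congruent to 11 mod 12
      have h1 : d ∣ (4 * c0 * B) * K := by
        rw [Nat.dvd_iff_prime_pow_dvd_dvd]
        intro p j hp hj
        rcases Nat.eq_zero_or_pos j with rfl | hjpos
        · simp
        have hpd : p ∣ d := (dvd_pow_self p hjpos.ne').trans hj
        have hp11 : p % 12 = 11 := hdP p (Nat.mem_primeFactors.2 ⟨hp, hpd, hd.ne'⟩)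
        have h2 := prime_pow_dvd_mul hp j (4 * c0 * B) b hb (hj.trans hdb)
        have h3 : p ^ (b.factorization p) ∣ K := by
          refine Dvd.dvd.trans ?_ hK'K
          rw [hp.pow_dvd_iff_le_factorization (by positivity)]
          by_contra hcon
          push Not at hcon
          have hpb : p ∣ b := Nat.dvd_of_factorization_pos (by omega)
          exact big_mod p hp c0 B a b hB hc0 hab hpb (γ 0) (w 0) hcon (hw 0 hM0).2 hp11
        exact h2.trans (mul_dvd_mul_left _ h3)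
      have h2 : d ≤ (4 * c0 * B) * K := Nat.le_of_dvd (Nat.mul_pos h4pos hKpos) h1
      have h3 : Real.log d ≤ Real.log ((4 * c0 * B : ℕ) : ℝ) + Real.log K := by
        have hKR : (0 : ℝ) < K := by exact_mod_cast hKpos
        rw [← Real.log_mul h4R.ne' hKR.ne']
        apply Real.log_le_log hdR
        exact_mod_cast h2
      rw [hC3]
      linarith
  -- conclusion
  have hNR : (0 : ℝ) < q.den := by exact_mod_cast q.den_pos
  have hlow : ε * Real.log q.den ≤ Real.log d := by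
    rw [← Real.log_rpow hNR]
    exact Real.log_le_log (Real.rpow_pos_of_pos hNR _) hdε
  have hbN : Real.log b ≤ Real.log K + Real.log q.den := by
    have hKR : (0 : ℝ) < K := by exact_mod_cast hKpos
    rw [← Real.log_mul hKR.ne' hNR.ne']
    apply Real.log_le_log hbR
    exact_mod_cast hbKN
  have hRb : Real.log b / R ≤ (ε / 2) * Real.log b := by
    have : Real.log b / R = (1 / R) * Real.log b := by ring
    rw [this]
    exact mul_le_mul_of_nonneg_right hRε hlogb0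
  have h1 : ε * (Real.log b - Real.log K) ≤ C3 + (ε / 2) * Real.log b := by
    have : ε * (Real.log b - Real.log K) ≤ ε * Real.log q.den :=
      mul_le_mul_of_nonneg_left (by linarith) hε.le
    linarith
  have h2 : (ε / 2) * Real.log b ≤ C3 + ε * Real.log K := by linarith
  have h3 : Real.log b ≤ T := by
    rw [hT]
    have : Real.log b = ((ε / 2) * Real.log b) * (2 / ε) := by field_simp
    rw [this]
    exact mul_le_mul_of_nonneg_right h2 (by positivity)
  linarith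

end Pool.Agent.Work.MP_36d6be_co
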